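import Pool.Agent.Q2.MK.Fine

/-!
# Migdal-Kadanoff project (helper291), job NTB (helper2): the mean of the first difference
-/

namespace Pool.Agent.Q2.MK

open Pool.Agent.Q291.MK Finset

/-- Fubini. -/
lemma E_E {a : ℕ → ℝ} (hA : AM a) {ψ : ℕ → ℕ → ℝ} (h : PB2 ψ) :
    E a (fun L => E a (fun K => ψ K L)) = E2 a ψ := by
  have hs := hA.summ2 h
  unfold E E2
  calc ∑' L, a L * ∑' K, a K * ψ K L = ∑' L, ∑' K, a K * a L * ψ K L := by
        refine tsum_congr fun L => ?_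
        rw [← tsum_mul_left]; exact tsum_congr fun K => by ring
    _ = ∑' K, ∑' L, a K * a L * ψ K L :=
        Summable.tsum_comm (f := fun K L => a K * a L * ψ K L) hs
    _ = ∑' p : ℕ × ℕ, a p.1 * a p.2 * ψ p.1 p.2 := (hs.tsum_prod).symm

lemma PB2.pred {ψ : ℕ → ℕ → ℝ} (h : PB2 ψ) : PB2 (fun K L => ψ (K - 1) L) := by
  obtain ⟨C, q, hC, h⟩ := h.nonneg_C
  refine ⟨C, q, fun K L => (h (K - 1) L).trans ?_⟩
  have h1 : (((K - 1 : ℕ)):ℝ) ≤ K := by exact_mod_cast Nat.sub_le _ _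
  gcongr

lemma PB_wt (e m' : ℝ) : PB (wt e m') := by
  have : wt e m' = fun J : ℕ => 1 + e / m' ^ 5 * ((J:ℝ) - m') ^ 10 := by
    funext J; unfold wt; ring
  rw [this]
  exact (PB.const 1).add ((PB.const _).mul ((PB.id.sub (PB.const m')).pow 10))

lemma PB_F1 (e m' r : ℝ) : PB (F1 e m' r) :=
  ((PB.const 2).mul ((PBx m').add (PB.const r))).mul (PB_wt e m')

variable {C D C3 C8 C12 e I0 : ℝ} {a φ : ℕ → ℝ}

lemma Ctx.bad (h : Ctx C D C3 C8 C12 e I0 a φ) {K K' L : ℕ} (hK : K' ≤ K)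
    (hn : (K:ℝ) + L < 3 / 4 * mean a) :
    H K' L (F1 e (mean (T a)) √(mean a)) ≤ 140 * mean a ^ 7 ∧
    H K' L (F2 e (mean (T a)) √(mean a)) ≤ 840 * mean a ^ 7 := by
  obtain ⟨h1, h2, h3, h4, h5⟩ := h.basic
  have hm5 := m'_five (by linarith [h.big]) h.near
  set μ := mean a
  set m' := mean (T a)
  set r := √μ
  have hk : (0:ℝ) ≤ K := Nat.cast_nonneg K
  have hl : (0:ℝ) ≤ L := Nat.cast_nonneg L
  have hm2 := h.near
  have hb : 10 ^ 6 ≤ μ := h.big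
  have hμ0 : 0 < μ := by linarith
  rw [abs_le] at hm2
  have hdev : ∀ j : ℕ, j ≤ K' → |(j:ℝ) - m'| ≤ μ := by
    intro j hj1
    have e1 : (j:ℝ) ≤ K := by exact_mod_cast hj1.trans hK
    have e3 : (0:ℝ) ≤ j := Nat.cast_nonneg j
    rw [abs_le]; constructor <;> linarith [hm2.1, hm2.2]
  have hw : ∀ j : ℕ, j ≤ K' → wt e m' j ≤ 35 * μ ^ 5 := by
    intro j hj1
    have e1 := hdev j hj1
    have e2 : ((j:ℝ) - m') ^ 10 ≤ μ ^ 10 := by
      rw [← Even.pow_abs (by decide)]; exact pow_le_pow_left₀ (abs_nonneg _) e1 10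
    have e3 : ((j:ℝ) - m') ^ 10 / m' ^ 5 ≤ μ ^ 10 * ((101 / 50) ^ 5 / μ ^ 5) := by
      rw [div_eq_mul_one_div]
      exact mul_le_mul e2 hm5.2 (by positivity) (by positivity)
    have e4 : μ ^ 10 * ((101 / 50) ^ 5 / μ ^ 5) = (101 / 50) ^ 5 * μ ^ 5 := by field_simp
    have e5 : e * (((j:ℝ) - m') ^ 10 / m' ^ 5) ≤ 1 * (((j:ℝ) - m') ^ 10 / m' ^ 5) :=
      mul_le_mul_of_nonneg_right h.e1 (div_nonneg (Even.pow_nonneg (by decide) _) hm5.1.le)
    have e6 : (1:ℝ) ≤ μ ^ 5 := one_le_pow₀ (by linarith)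
    have e7 : (101 / 50 : ℝ) ^ 5 ≤ 34 := by norm_num
    have e8 : (101 / 50 : ℝ) ^ 5 * μ ^ 5 ≤ 34 * μ ^ 5 := mul_le_mul_of_nonneg_right e7 (by positivity)
    unfold wt
    linarith
  have hμ6 : μ ^ 6 ≤ μ ^ 7 := pow_le_pow_right₀ (by linarith) (by norm_num)
  have hrμ : r ≤ μ := by linarith
  constructor
  · refine H_le_const _ _ fun j hj _ => ?_
    unfold F1
    have e1 := hw j hj
    have e2 := hdev j hj
    have e3 := h5 j
    calc 2 * (|(j:ℝ) - m'| + r) * wt e m' j ≤ 2 * (μ + μ) * (35 * μ ^ 5) :=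
          mul_le_mul (by linarith) e1 (by linarith) (by positivity)
      _ = 140 * μ ^ 6 := by ring
      _ ≤ _ := by linarith
  · refine H_le_const _ _ fun j hj _ => ?_
    unfold F2
    have e1 := hw j hj
    have e2 := hdev j hj
    have e3 := h5 j
    have e4 : (|(j:ℝ) - m'| + r) ^ 2 ≤ (μ + μ) ^ 2 :=
      pow_le_pow_left₀ (by positivity) (by linarith) 2
    calc 6 * (|(j:ℝ) - m'| + r) ^ 2 * wt e m' j ≤ 6 * (μ + μ) ^ 2 * (35 * μ ^ 5) :=
          mul_le_mul (by linarith) e1 (by linarith) (by positivity)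
      _ = _ := by ring

/-- Weighted expectation of a function which is bounded by `σ ^ 12`. -/
lemma Ctx.Ew_le (h : Ctx C D C3 C8 C12 e I0 a φ) {ψ : ℕ → ℕ → ℝ} (hψ : PB2 ψ) {c : ℝ}
    (hc : 0 ≤ c)
    (hgood : ∀ K L : ℕ, 3 / 4 * mean a ≤ (K:ℝ) + L → |ψ K L| ≤ c * sg (mean a) √(mean a) K L ^ 12)
    (hbad : ∀ K L : ℕ, (K:ℝ) + L < 3 / 4 * mean a → |ψ K L| ≤ c * mean a ^ 7) :
    |Ew a ψ| ≤ 2 * c * (9 / 2 * (2 ^ 22 * (1 + 2 * C12)) + D * 4 ^ 24 * C12 ^ 2) := by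
  obtain ⟨h1, h2, h3, h4, h5⟩ := h.basic
  have hA := h.cl.toCls.toAM
  have hb := h.big
  have hμ0 : 0 < mean a := by linarith
  have hr0 : 0 < √(mean a) := by linarith
  have hI0 := h.rho.pos
  have hD := h.hD
  have h12 := h.h12
  have hZ : 0 < E2 a (fun K L => I (K + L)) := hA.Z_pos
  have hZ2 : 999 / 1000 * I0 ≤ E2 a (fun K L => I (K + L)) := by
    have := h.Z
    rwa [le_div_iff₀ hI0] at this
  have m12 := h.m12
  set μ := mean a with hμ
  set r := √μ with hr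
  have pu := (PBu μ r).pow 12
  have hpt : ∀ K L : ℕ, I (K + L) * |ψ K L| ≤ I0 * (c * (9 / 2 * (2 ^ 22 *
      (1 + (|(K:ℝ) - μ| / r) ^ 12 + (|(L:ℝ) - μ| / r) ^ 12))) +
      c * (D * 4 ^ 24) * ((|(K:ℝ) - μ| / r) ^ 12 * (|(L:ℝ) - μ| / r) ^ 12)) := by
    intro K L
    have hk : (0:ℝ) ≤ K := Nat.cast_nonneg K
    have hl : (0:ℝ) ≤ L := Nat.cast_nonneg L
    have e0 : I (K + L) * |ψ K L| = I0 * (I (K + L) / I0 * |ψ K L|) := by field_simp
    rw [e0]
    refine mul_le_mul_of_nonneg_left ?_ hI0.le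
    have q1 : 0 ≤ (|(K:ℝ) - μ| / r) ^ 12 := by positivity
    have q2 : 0 ≤ (|(L:ℝ) - μ| / r) ^ 12 := by positivity
    rcases le_or_gt (3 / 4 * μ) ((K:ℝ) + L) with hn | hn
    · have e1 := h.rho.half (K + L) (by push_cast; exact hn)
      have e2 := hgood K L hn
      have e3 := mul_le_mul e1 e2 (abs_nonneg _) (by norm_num)
      refine e3.trans ?_
      have e4 : sg μ r K L = 1 + |(K:ℝ) - μ| / r + |(L:ℝ) - μ| / r := by
        unfold sg; field_simp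
      have e5 := three_add 1 (|(K:ℝ) - μ| / r) (|(L:ℝ) - μ| / r)
      rw [← e4, one_pow] at e5
      have e6 := mul_le_mul_of_nonneg_left e5 (by positivity : 0 ≤ c * (9 / 2))
      have e7 : 0 ≤ c * (D * 4 ^ 24) * ((|(K:ℝ) - μ| / r) ^ 12 * (|(L:ℝ) - μ| / r) ^ 12) := by
        positivity
      have e8 : 9 / 2 * (c * sg μ r K L ^ 12) = c * (9 / 2) * sg μ r K L ^ 12 := by ring
      rw [e8]
      refine e6.trans ?_
      have e9 : c * (9 / 2) * (2 ^ 22 * (1 + (|(K:ℝ) - μ| / r) ^ 12 + (|(L:ℝ) - μ| / r) ^ 12)) =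
        c * (9 / 2 * (2 ^ 22 * (1 + (|(K:ℝ) - μ| / r) ^ 12 + (|(L:ℝ) - μ| / r) ^ 12))) := by ring
      rw [e9]
      linarith
    · have e1 := h.rho.all (K + L)
      have e2 := hbad K L hn
      have e3 := mul_le_mul e1 e2 (abs_nonneg _) (by positivity)
      refine e3.trans ?_
      have key : ∀ w : ℝ, 0 ≤ w → w < 3 / 4 * μ → μ ^ 6 / 4 ^ 12 ≤ (|w - μ| / r) ^ 12 := by
        intro w hw hw2
        have f1 : μ / 4 ≤ |w - μ| := by
          have := neg_le_abs (w - μ)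
          linarith
        have f2 : r / 4 ≤ |w - μ| / r := by
          rw [le_div_iff₀ hr0]
          calc r / 4 * r = r ^ 2 / 4 := by ring
            _ = μ / 4 := by rw [h2]
            _ ≤ _ := f1
        have f3 : (r / 4) ^ 12 ≤ (|w - μ| / r) ^ 12 := pow_le_pow_left₀ (by positivity) f2 12
        have f4 : (r / 4) ^ 12 = μ ^ 6 / 4 ^ 12 := by
          calc (r / 4) ^ 12 = (r ^ 2) ^ 6 / 4 ^ 12 := by ring
            _ = _ := by rw [h2]
        rwa [f4] at f3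
      have k1 := key K hk (by linarith)
      have k2 := key L hl (by linarith)
      have k3 := mul_le_mul k1 k2 (by positivity) q1
      have k4 : μ ^ 9 ≤ μ ^ 12 := pow_le_pow_right₀ (by linarith) (by norm_num)
      have k5 : D * μ ^ 2 * (c * μ ^ 7) = c * D * μ ^ 9 := by ring
      have k6 := mul_le_mul_of_nonneg_left k4 (by positivity : 0 ≤ c * D)
      have k7 := mul_le_mul_of_nonneg_left k3 (by positivity : 0 ≤ c * (D * 4 ^ 24))
      have k8 : c * (D * 4 ^ 24) * (μ ^ 6 / 4 ^ 12 * (μ ^ 6 / 4 ^ 12)) = c * D * μ ^ 12 := by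
        ring
      rw [k8] at k7
      have k9 : 0 ≤ c * (9 / 2 * (2 ^ 22 *
        (1 + (|(K:ℝ) - μ| / r) ^ 12 + (|(L:ℝ) - μ| / r) ^ 12))) := by positivity
      rw [k5]
      linarith
  have pA := ((PB2.const (1:ℝ)).add (PB2.fst pu)).add (PB2.snd pu)
  have pB := (PB2.fst pu).mul (PB2.snd pu)
  have pP := (PB2.const I0).mul (((PB2.const c).mul ((PB2.const (9 / 2)).mul
    ((PB2.const (2 ^ 22)).mul pA))).add ((PB2.const (c * (D * 4 ^ 24))).mul pB))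
  have s1 : |E2 a (fun K L => I (K + L) * ψ K L)| ≤ E2 a (fun K L => I (K + L) * |ψ K L|) := by
    refine (hA.abs_E2_le (PB2.I.mul hψ)).trans (le_of_eq ?_)
    congr 1
    funext K L
    rw [abs_mul, abs_of_pos (I_pos _)]
  have s2 := hA.E2_mono (PB2.I.mul hψ.abs) pP hpt
  rw [E2_const_mul, hA.E2_add ((PB2.const c).mul ((PB2.const (9 / 2)).mul
    ((PB2.const (2 ^ 22)).mul pA))) ((PB2.const (c * (D * 4 ^ 24))).mul pB), E2_const_mul,
    E2_const_mul, E2_const_mul, E2_const_mul, hA.E2_add ((PB2.const (1:ℝ)).add (PB2.fst pu))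
    (PB2.snd pu), hA.E2_add (PB2.const (1:ℝ)) (PB2.fst pu), hA.E2_cst, hA.E2_fst pu,
    hA.E2_snd pu, hA.E2_mul pu pu] at s2
  have m0 : 0 ≤ E a (fun K => (|(K:ℝ) - μ| / r) ^ 12) := by
    have := hA.E_mono (PB.const 0) pu (fun K => by positivity)
    rwa [hA.toLaw.E_const] at this
  set m := E a (fun K => (|(K:ℝ) - μ| / r) ^ 12)
  have s3 : c * (9 / 2 * (2 ^ 22 * (1 + m + m))) + c * (D * 4 ^ 24) * (m * m) ≤
      c * (9 / 2 * (2 ^ 22 * (1 + 2 * C12)) + D * 4 ^ 24 * C12 ^ 2) := by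
    have e1 : c * (9 / 2 * (2 ^ 22 * (1 + m + m))) ≤ c * (9 / 2 * (2 ^ 22 * (1 + 2 * C12))) := by
      exact mul_le_mul_of_nonneg_left (mul_le_mul_of_nonneg_left
        (mul_le_mul_of_nonneg_left (by linarith) (by norm_num)) (by norm_num)) hc
    have e2 : m * m ≤ C12 ^ 2 := by
      rw [sq]; exact mul_le_mul m12 m12 m0 (by linarith)
    have e3 := mul_le_mul_of_nonneg_left e2 (by positivity : 0 ≤ c * (D * 4 ^ 24))
    calc _ ≤ c * (9 / 2 * (2 ^ 22 * (1 + 2 * C12))) + c * (D * 4 ^ 24) * C12 ^ 2 :=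
          add_le_add e1 e3
      _ = _ := by ring
  have s4 := mul_le_mul_of_nonneg_left s3 hI0.le
  have s5 : 0 ≤ c * (9 / 2 * (2 ^ 22 * (1 + 2 * C12)) + D * 4 ^ 24 * C12 ^ 2) := by positivity
  unfold Ew
  rw [abs_div, abs_of_pos hZ, div_le_iff₀ hZ]
  refine (s1.trans (s2.trans s4)).trans ?_
  set S := c * (9 / 2 * (2 ^ 22 * (1 + 2 * C12)) + D * 4 ^ 24 * C12 ^ 2)
  have e1 : 2 * c * (9 / 2 * (2 ^ 22 * (1 + 2 * C12)) + D * 4 ^ 24 * C12 ^ 2) = 2 * S := by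
    simp only [S]; ring
  rw [e1]
  calc I0 * S ≤ 2 * S * (999 / 1000 * I0) := by nlinarith [mul_nonneg hI0.le s5]
    _ ≤ _ := mul_le_mul_of_nonneg_left hZ2 (by positivity)

/-- The coefficient of the first difference. -/
noncomputable def kt (K L : ℕ) : ℝ := (2 * ((K:ℝ) + L) + 3) / (2 * ((K:ℝ) + L) + 6) * kap K L

lemma kt_nonneg (K L : ℕ) : 0 ≤ kt K L := by
  have := kap_nonneg K L
  unfold kt; positivity

lemma kt_le_one (K L : ℕ) : kt K L ≤ 1 := by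
  unfold kt
  refine mul_le_one₀ ?_ (kap_nonneg K L) (kap_le_one K L)
  rw [div_le_one (by positivity)]; linarith

lemma kt_near {μ : ℝ} (K L : ℕ) (h : 3 / 4 * μ ≤ (K:ℝ) + L) (hμ : 0 < μ) :
    |kt K L - 1 / 4| ≤ (|(K:ℝ) - μ| + |(L:ℝ) - μ| + 3) / μ := by
  have h1 := kap_near K L h hμ
  have h2 := kap_nonneg K L
  have h3 := kap_le_one K L
  have hk : (0:ℝ) ≤ K := Nat.cast_nonneg K
  have hl : (0:ℝ) ≤ L := Nat.cast_nonneg L
  have e1 : kt K L = kap K L - 3 / (2 * ((K:ℝ) + L) + 6) * kap K L := by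
    unfold kt; field_simp; ring
  have e2 : 3 / (2 * ((K:ℝ) + L) + 6) * kap K L ≤ 2 / μ := by
    have e3 : 3 / (2 * ((K:ℝ) + L) + 6) * kap K L ≤ 3 / (2 * ((K:ℝ) + L) + 6) * 1 :=
      mul_le_mul_of_nonneg_left h3 (by positivity)
    have e4 : 3 / (2 * ((K:ℝ) + L) + 6) ≤ 2 / μ := by
      rw [div_le_div_iff₀ (by positivity) hμ]; linarith
    linarith
  have e5 : 0 ≤ 3 / (2 * ((K:ℝ) + L) + 6) * kap K L := by positivity
  have e6 : (|(K:ℝ) - μ| + |(L:ℝ) - μ| + 3) / μ = (|(K:ℝ) - μ| + |(L:ℝ) - μ| + 1) / μ + 2 / μ := by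
    ring
  rw [e6, e1]
  rw [abs_le] at h1 ⊢
  constructor <;> linarith [h1.1, h1.2]

/-- The first function. -/
noncomputable def psi1 (a φ : ℕ → ℝ) (K L : ℕ) : ℝ :=
  (kt K L - 1 / 4) * H (K - 1) L (dl φ) - 3 / 2 / ((K:ℝ) + L + 3) * (H K L φ - E (T a) φ)

/-- The second function. -/
noncomputable def psi2 (φ : ℕ → ℝ) (K L : ℕ) : ℝ := H K L (dl φ) - H (K - 1) L (dl φ)

lemma Ctx.pb_dl (h : Ctx C D C3 C8 C12 e I0 a φ) : PB (dl φ) :=
  (PB_F1 e (mean (T a)) √(mean a)).of_le h.g1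

lemma Ctx.pb1 (h : Ctx C D C3 C8 C12 e I0 a φ) : PB2 (psi1 a φ) := by
  have p1 : PB2 (fun K L => H (K - 1) L (dl φ)) :=
    PB2.pred (Pool.Agent.Q222.MK.PB2_H hyp1 h.pb_dl)
  have p2 : PB2 (fun K L => H K L φ - E (T a) φ) :=
    (Pool.Agent.Q222.MK.PB2_H hyp1 h.pb).sub (PB2.const _)
  have p3 : PB2 (fun K L => kt K L - 1 / 4) := PB2.bdd 1 fun K L => by
    have := kt_nonneg K L
    have := kt_le_one K L
    rw [abs_le]; constructor <;> linarith
  have p4 : PB2 (fun K L => 3 / 2 / ((K:ℝ) + L + 3)) := PB2.bdd 1 fun K L => by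
    have hk : (0:ℝ) ≤ K := Nat.cast_nonneg K
    have hl : (0:ℝ) ≤ L := Nat.cast_nonneg L
    rw [abs_of_nonneg (by positivity), div_le_one (by positivity)]; linarith
  exact (p3.mul p1).sub (p4.mul p2)

lemma Ctx.pb2 (h : Ctx C D C3 C8 C12 e I0 a φ) : PB2 (psi2 φ) :=
  (Pool.Agent.Q222.MK.PB2_H hyp1 h.pb_dl).sub
    (PB2.pred (Pool.Agent.Q222.MK.PB2_H hyp1 h.pb_dl))

lemma Ctx.A1 (h : Ctx C D C3 C8 C12 e I0 a φ) (K L : ℕ) :
    |H K L (dl φ)| ≤ H K L (F1 e (mean (T a)) √(mean a)) := H_abs_le K L fun j _ _ => h.g1 j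

lemma Ctx.A2 (h : Ctx C D C3 C8 C12 e I0 a φ) (K L : ℕ) :
    |H K L φ - E (T a) φ| ≤ H K L (F2 e (mean (T a)) √(mean a)) := by
  have e : H K L φ - E (T a) φ = H K L (fun j => φ j - E (T a) φ) := by rw [H_sub, H_const]
  rw [e]; exact H_abs_le K L fun j _ _ => h.g2 j

lemma Ctx.psi1_good (h : Ctx C D C3 C8 C12 e I0 a φ) (K L : ℕ)
    (hn : 3 / 4 * mean a ≤ (K:ℝ) + L) :
    |psi1 a φ K L| ≤ 36000 * (2 ^ 24 * (C + 1)) * sg (mean a) √(mean a) K L ^ 12 := by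
  obtain ⟨h1, h2, h3, h4, h5⟩ := h.basic
  have f1 := h.HF1 (K := K) (K' := K - 1) (by omega) (by omega) L
  have f2 := h.HF2 (K := K) (K' := K) (by omega) (by omega) L
  have a1 := (h.A1 (K - 1) L).trans f1
  have a2 := (h.A2 K L).trans f2
  have s1 := h.sg_one K L
  have hb := h.big
  have hμ0 : 0 < mean a := by linarith
  have hr0 : 0 < √(mean a) := by linarith
  have hC := h.hC
  have k1 := kt_near K L hn hμ0
  have hx := abs_nonneg ((K:ℝ) - mean a)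
  have hy := abs_nonneg ((L:ℝ) - mean a)
  have hk : (0:ℝ) ≤ K := Nat.cast_nonneg K
  have hl : (0:ℝ) ≤ L := Nat.cast_nonneg L
  have k2 : |kt K L - 1 / 4| ≤ sg (mean a) √(mean a) K L / √(mean a) := by
    refine k1.trans ?_
    unfold sg
    rw [div_div, ← sq, h2]
    exact div_le_div_of_nonneg_right (by linarith) hμ0.le
  set P := 2 ^ 24 * (C + 1) with hP
  have hP0 : 0 < P := by positivity
  set s := sg (mean a) √(mean a) K L
  have hs0 : 0 ≤ s := by linarith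
  set r := √(mean a)
  set μ := mean a
  have t1 : |(kt K L - 1 / 4) * H (K - 1) L (dl φ)| ≤ 70 * P * s ^ 12 := by
    rw [abs_mul]
    have e1 := mul_le_mul k2 a1 (abs_nonneg _) (by positivity)
    refine e1.trans (le_of_eq ?_)
    field_simp
  have t2 : |3 / 2 / ((K:ℝ) + L + 3) * (H K L φ - E (T a) φ)| ≤ 420 * P * s ^ 12 := by
    rw [abs_mul, abs_of_nonneg (by positivity : 0 ≤ 3 / 2 / ((K:ℝ) + L + 3))]
    have e1 : 3 / 2 / ((K:ℝ) + L + 3) ≤ 2 / μ := by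
      rw [div_le_div_iff₀ (by positivity) hμ0]; linarith
    have e2 := mul_le_mul e1 a2 (abs_nonneg _) (by positivity)
    refine e2.trans (le_of_eq ?_)
    field_simp
    ring
  unfold psi1
  refine (abs_sub _ _).trans ?_
  have e3 : 0 ≤ P * s ^ 12 := by positivity
  have e4 : 36000 * P * s ^ 12 = 36000 * (P * s ^ 12) := by ring
  have e5 : 70 * P * s ^ 12 = 70 * (P * s ^ 12) := by ring
  have e6 : 420 * P * s ^ 12 = 420 * (P * s ^ 12) := by ring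
  rw [e5] at t1
  rw [e6] at t2
  rw [e4]
  linarith

lemma Ctx.psi1_bad (h : Ctx C D C3 C8 C12 e I0 a φ) (K L : ℕ)
    (hn : (K:ℝ) + L < 3 / 4 * mean a) :
    |psi1 a φ K L| ≤ 36000 * (2 ^ 24 * (C + 1)) * mean a ^ 7 := by
  have f1 := (h.bad (K' := K - 1) (Nat.sub_le K 1) hn).1
  have f2 := (h.bad (K' := K) le_rfl hn).2
  have a1 := (h.A1 (K - 1) L).trans f1
  have a2 := (h.A2 K L).trans f2
  have hC := h.hC
  have hb := h.big
  have hμ0 : 0 < mean a := by linarith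
  have hk : (0:ℝ) ≤ K := Nat.cast_nonneg K
  have hl : (0:ℝ) ≤ L := Nat.cast_nonneg L
  have k1 := kt_nonneg K L
  have k2 := kt_le_one K L
  have k3 : |kt K L - 1 / 4| ≤ 1 := by rw [abs_le]; constructor <;> linarith
  have t1 : |(kt K L - 1 / 4) * H (K - 1) L (dl φ)| ≤ 1 * (140 * mean a ^ 7) := by
    rw [abs_mul]
    exact mul_le_mul k3 a1 (abs_nonneg _) (by norm_num)
  have t2 : |3 / 2 / ((K:ℝ) + L + 3) * (H K L φ - E (T a) φ)| ≤ 1 * (840 * mean a ^ 7) := by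
    rw [abs_mul, abs_of_nonneg (by positivity : 0 ≤ 3 / 2 / ((K:ℝ) + L + 3))]
    refine mul_le_mul ?_ a2 (abs_nonneg _) (by norm_num)
    rw [div_le_one (by positivity)]; linarith
  unfold psi1
  refine (abs_sub _ _).trans ?_
  have hμ7 : 0 ≤ mean a ^ 7 := by positivity
  have e1 : 0 ≤ C * mean a ^ 7 := by positivity
  have e2 : 36000 * (2 ^ 24 * (C + 1)) * mean a ^ 7 = 36000 * 2 ^ 24 * (C * mean a ^ 7) +
    36000 * 2 ^ 24 * mean a ^ 7 := by ring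
  rw [e2]
  linarith

lemma Ctx.psi2_good (hdif : P_DIF) (h : Ctx C D C3 C8 C12 e I0 a φ) (K L : ℕ)
    (_hn : 3 / 4 * mean a ≤ (K:ℝ) + L) :
    |psi2 φ K L| ≤ 36000 * (2 ^ 24 * (C + 1)) * sg (mean a) √(mean a) K L ^ 12 := by
  obtain ⟨h1, h2, h3, h4, h5⟩ := h.basic
  have hr0 : 0 < √(mean a) := by linarith
  have hC := h.hC
  have s1 := h.sg_one K L
  have hs0 : 0 ≤ sg (mean a) √(mean a) K L := by linarith
  rcases Nat.eq_zero_or_pos K with hK | hK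
  · subst hK
    have : psi2 φ 0 L = 0 := by unfold psi2; simp
    rw [this, abs_zero]; positivity
  · obtain ⟨k, rfl⟩ : ∃ k, K = k + 1 := ⟨K - 1, by omega⟩
    have e1 : psi2 φ (k + 1) L = kap L k * H (L - 1) k (dl (dl φ)) := by
      unfold psi2
      rw [(hdif (k + 1) L (dl φ)).2.1, Nat.add_sub_cancel, (hdif k L (dl φ)).2.1]
      exact (hdif L k (dl φ)).1
    have f0 := h.HF0 (K := L) (K' := L - 1) (by omega) (by omega) k
    have a0 : |H (L - 1) k (dl (dl φ))| ≤ H (L - 1) k (F0 e (mean (T a))) :=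
      H_abs_le _ _ fun j _ _ => h.g0 j
    have a1 := a0.trans f0
    have s2 : sg (mean a) √(mean a) L k ≤ 2 * sg (mean a) √(mean a) (k + 1) L := by
      have hx := abs_nonneg (((k + 1 : ℕ):ℝ) - mean a)
      have hy := abs_nonneg ((L:ℝ) - mean a)
      have e3 : |(k:ℝ) - mean a| ≤ |((k + 1 : ℕ):ℝ) - mean a| + 1 := by
        have e4 : (k:ℝ) - mean a = (((k + 1 : ℕ):ℝ) - mean a) + (-1) := by push_cast; ring
        rw [e4]
        refine (abs_add_le _ _).trans ?_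
        simp
      unfold sg
      rw [mul_div_assoc']
      exact div_le_div_of_nonneg_right (by linarith) hr0.le
    have s3 : 0 ≤ sg (mean a) √(mean a) L k := by linarith [h.sg_one L k]
    have s4 : sg (mean a) √(mean a) L k ^ 10 ≤ 1024 * sg (mean a) √(mean a) (k + 1) L ^ 12 := by
      have e3 := pow_le_pow_left₀ s3 s2 10
      have e4 : sg (mean a) √(mean a) (k + 1) L ^ 10 ≤ sg (mean a) √(mean a) (k + 1) L ^ 12 :=
        pow_le_pow_right₀ s1 (by norm_num)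
      rw [mul_pow] at e3
      have e5 : (2:ℝ) ^ 10 = 1024 := by norm_num
      rw [e5] at e3
      linarith
    rw [e1, abs_mul, abs_of_nonneg (kap_nonneg L k)]
    have e6 : kap L k * |H (L - 1) k (dl (dl φ))| ≤
        1 * (35 * (2 ^ 24 * (C + 1)) * sg (mean a) √(mean a) L k ^ 10) :=
      mul_le_mul (kap_le_one L k) a1 (abs_nonneg _) (by norm_num)
    have e7 := mul_le_mul_of_nonneg_left s4 (by positivity : 0 ≤ 35 * (2 ^ 24 * (C + 1)))
    set P := 2 ^ 24 * (C + 1)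
    set q := sg (mean a) √(mean a) (k + 1) L ^ 12
    have e8 : 0 ≤ P * q := by positivity
    have e9 : 35 * P * (1024 * q) = 35840 * (P * q) := by ring
    have e10 : 36000 * P * q = 36000 * (P * q) := by ring
    rw [e9] at e7
    rw [e10]
    linarith

lemma Ctx.psi2_bad (h : Ctx C D C3 C8 C12 e I0 a φ) (K L : ℕ)
    (hn : (K:ℝ) + L < 3 / 4 * mean a) :
    |psi2 φ K L| ≤ 36000 * (2 ^ 24 * (C + 1)) * mean a ^ 7 := by
  have f1 := (h.bad (K' := K - 1) (Nat.sub_le K 1) hn).1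
  have f2 := (h.bad (K' := K) le_rfl hn).1
  have a1 := (h.A1 (K - 1) L).trans f1
  have a2 := (h.A1 K L).trans f2
  have hC := h.hC
  have hb := h.big
  have hμ0 : 0 < mean a := by linarith
  unfold psi2
  refine (abs_sub _ _).trans ?_
  have hμ7 : 0 ≤ mean a ^ 7 := by positivity
  have e1 : 0 ≤ C * mean a ^ 7 := by positivity
  have e2 : 36000 * (2 ^ 24 * (C + 1)) * mean a ^ 7 = 36000 * 2 ^ 24 * (C * mean a ^ 7) +
    36000 * 2 ^ 24 * mean a ^ 7 := by ring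
  rw [e2]
  linarith

lemma Ctx.first (hdif : P_DIF) (h : Ctx C D C3 C8 C12 e I0 a φ) (hE : E (T a) (dl φ) = 0) :
    E a (dl (TT a φ)) = 2 * (Ew a (psi1 a φ) - 1 / 4 * Ew a (psi2 φ)) := by
  have hA := h.cl.toCls.toAM
  have p := PB2_f h.pb (E (T a) φ)
  have p1 : PB2 (fun K L => dl (fun L => I (K + L) * (H K L φ - E (T a) φ)) L) := by
    obtain ⟨c', q, hc', hq⟩ := p.nonneg_C
    have pS : PB2 (fun K L => I (K + (L + 1)) * (H K (L + 1) φ - E (T a) φ)) := by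
      refine ⟨c' * 2 ^ q, q, fun K L => (hq K (L + 1)).trans ?_⟩
      have hk : (0:ℝ) ≤ K := Nat.cast_nonneg K
      have hl : (0:ℝ) ≤ L := Nat.cast_nonneg L
      rw [mul_assoc, ← mul_pow]
      refine mul_le_mul_of_nonneg_left (pow_le_pow_left₀ (by positivity) ?_ q) hc'
      push_cast
      nlinarith [mul_nonneg hk hl]
    exact pS.sub p
  have f1 : dl (TT a φ) = fun L => 2 / E2 a (fun K L => I (K + L)) *
      E a (fun K => dl (fun L => I (K + L) * (H K L φ - E (T a) φ)) L) := by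
    funext L
    rw [dTT hA h.pb L]; ring
  rw [f1, E_const_mul, E_E hA p1]
  have f2 : (fun K L => dl (fun L => I (K + L) * (H K L φ - E (T a) φ)) L) =
      fun K L => I (K + L) * (psi1 a φ K L - 1 / 4 * psi2 φ K L + 1 / 4 * H K L (dl φ)) := by
    funext K L
    rw [((hdif K L φ).2.2 (E (T a) φ)).1, I_succ]
    unfold psi1 psi2 kt
    push_cast
    have hn : (2 * ((K:ℝ) + L) + 6) ≠ 0 := by positivity
    have hn3 : ((K:ℝ) + L + 3) ≠ 0 := by positivity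
    ring
  have f3 : E2 a (fun K L => dl (fun L => I (K + L) * (H K L φ - E (T a) φ)) L) /
      E2 a (fun K L => I (K + L)) =
      Ew a (fun K L => psi1 a φ K L - 1 / 4 * psi2 φ K L + 1 / 4 * H K L (dl φ)) := by
    rw [f2]; rfl
  have pH := Pool.Agent.Q222.MK.PB2_H hyp1 h.pb_dl
  have f4 : Ew a (fun K L => H K L (dl φ)) = 0 := by
    rw [← ((Pool.Agent.Q222.MK.t_TLAW hyp1 a hA).2 (dl φ) h.pb_dl).2]; exact hE
  have f5 := hA.Ew_add (h.pb1.sub ((PB2.const (1 / 4)).mul h.pb2)) ((PB2.const (1 / 4)).mul pH)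
  have f6 := hA.Ew_sub h.pb1 ((PB2.const (1 / 4)).mul h.pb2)
  rw [f5, f6, Ew_const_mul, Ew_const_mul, f4] at f3
  calc 2 / E2 a (fun K L => I (K + L)) *
        E2 a (fun K L => dl (fun L => I (K + L) * (H K L φ - E (T a) φ)) L) =
        2 * (E2 a (fun K L => dl (fun L => I (K + L) * (H K L φ - E (T a) φ)) L) /
          E2 a (fun K L => I (K + L))) := by ring
    _ = _ := by rw [f3]; ring

/-- JOB NTB -/
theorem t_NTB (hdif : P_DIF) (hH : P_HTW) (hG : P_GRO) : P_NTB := by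
  obtain ⟨C, D, hC, hD, H'⟩ := ctx_ex hH hG
  intro C3 C8 C12 h3 h8 h12
  obtain ⟨e0, M, he0, H'⟩ := H' C3 C8 C12 h3 h8 h12
  refine ⟨e0, he0, fun e he hee => ?_⟩
  obtain ⟨c, hc⟩ : ∃ c : ℝ, c = 36000 * (2 ^ 24 * (C + 1)) := ⟨_, rfl⟩
  have hc0 : 0 < c := by rw [hc]; positivity
  obtain ⟨V, hV⟩ : ∃ V : ℝ, V = 2 * c * (9 / 2 * (2 ^ 22 * (1 + 2 * C12)) + D * 4 ^ 24 * C12 ^ 2) :=
    ⟨_, rfl⟩
  have hV0 : 0 < V := by rw [hV]; positivity
  refine ⟨3 * V, max 10 M, by positivity, le_max_left _ _, fun a ha φ hφ hE => ?_⟩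
  obtain ⟨I0, h⟩ := H' e he hee a (⟨ha.cl, ha.clT, (le_max_right _ _).trans ha.big, ha.near⟩) φ hφ hE
  have b1 := h.Ew_le h.pb1 hc0.le (by rw [hc]; exact h.psi1_good) (by rw [hc]; exact h.psi1_bad)
  have b2 := h.Ew_le h.pb2 hc0.le (by rw [hc]; exact h.psi2_good hdif)
    (by rw [hc]; exact h.psi2_bad)
  rw [← hV] at b1 b2
  rw [h.first hdif hE]
  rw [abs_le] at b1 b2 ⊢
  constructor <;> linarith [b1.1, b1.2, b2.1, b2.2]

end Pool.Agent.Q2.MK
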