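import Pool.Agent.Q2.MK.Fine

/-!
# Migdal-Kadanoff project (helper291), jobs NTN and NTF (helper2): contraction of second
differences
-/

namespace Pool.Agent.Q2.MK

open Pool.Agent.Q291.MK Finset

lemma Rg.mono {C3 C8 C12 M M' : ℝ} {a : ℕ → ℝ} (h : Rg C3 C8 C12 M' a) (hM : M ≤ M') :
    Rg C3 C8 C12 M a := ⟨h.cl, h.clT, hM.trans h.big, h.near⟩

/-- JOB NTF -/
theorem t_NTF (hdif : P_DIF) (hH : P_HTW) (hG : P_GRO) : P_NTF := by
  obtain ⟨C, D, hC, hD, H⟩ := ctx_ex hH hG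
  intro C3 C8 C12 h3 h8 h12
  obtain ⟨e0, M, he0, H⟩ := H C3 C8 C12 h3 h8 h12
  refine ⟨e0, he0, fun e he hee => ?_⟩
  have hcW : 0 ≤ cW C := by unfold cW; positivity
  set A := 173 * (1 + cW C * (2 ^ 11 * (1 + C12))) with hA
  have hA0 : 0 < A := by positivity
  refine ⟨max (10 + 2404 * 4 ^ 22 * D * C12 / e + 2 * A * 10 ^ 40 / e) M,
    (by
      have : 0 ≤ 2404 * 4 ^ 22 * D * C12 / e := by positivity
      have : 0 ≤ 2 * A * 10 ^ 40 / e := by positivity
      exact le_max_of_le_left (by linarith)), fun a ha φ hφ hE L hL => ?_⟩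
  have hb := (le_max_left _ _).trans ha.big
  obtain ⟨I0, h⟩ := H e he hee a (Rg.mono ha (le_max_right _ _)) φ hφ hE
  have q1 : 0 ≤ 2404 * 4 ^ 22 * D * C12 / e := by positivity
  have q2 : 0 ≤ 2 * A * 10 ^ 40 / e := by positivity
  have hμ0 : 0 < mean a := by linarith
  have h1 : 2404 * 4 ^ 22 * D * C12 ≤ e * mean a := by
    have : 2404 * 4 ^ 22 * D * C12 / e ≤ mean a := by linarith
    rw [div_le_iff₀ he] at this; linarith
  have h2 : 2 * A * 10 ^ 40 ≤ e * mean a := by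
    have : 2 * A * 10 ^ 40 / e ≤ mean a := by linarith
    rw [div_le_iff₀ he] at this; linarith
  have h3' : e * mean a ≤ e * mean a ^ 2 := by
    refine mul_le_mul_of_nonneg_left ?_ he.le
    nlinarith
  have hc := h.crude hdif (h1.trans h3') L
  rw [← hA] at hc
  set z := ((L:ℝ) - mean a) ^ 10 / mean a ^ 5 with hz
  have h4 : 2 * A ≤ e * z := by
    have e1 : mean a ^ 5 / 10 ^ 40 ≤ z := by
      rw [hz, le_div_iff₀ (by positivity)]
      have e2 : (mean a / 10000) ^ 10 ≤ |(L:ℝ) - mean a| ^ 10 :=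
        pow_le_pow_left₀ (by positivity) hL.le 10
      rw [Even.pow_abs (by decide)] at e2
      refine le_trans (le_of_eq ?_) e2
      ring
    have e2 : e * (mean a ^ 5 / 10 ^ 40) ≤ e * z := mul_le_mul_of_nonneg_left e1 he.le
    have e3 : e * mean a ≤ e * mean a ^ 5 := by
      refine mul_le_mul_of_nonneg_left ?_ he.le
      calc mean a = mean a ^ 1 := (pow_one _).symm
        _ ≤ mean a ^ 5 := pow_le_pow_right₀ (by linarith) (by norm_num)
    have e4 : e * (mean a ^ 5 / 10 ^ 40) = e * mean a ^ 5 / 10 ^ 40 := by ring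
    rw [e4] at e2
    refine le_trans ?_ e2
    rw [le_div_iff₀ (by positivity)]
    linarith
  have e1 : 101 / 800 * wt (64 * e) (mean a) L = 101 / 800 + 6464 / 800 * (e * z) := by
    unfold wt; rw [← hz]; ring
  rw [e1]
  linarith

/-- JOB NTN -/
theorem t_NTN (hdif : P_DIF) (hH : P_HTW) (hG : P_GRO) : P_NTN := by
  obtain ⟨C, D, hC, hD, H⟩ := ctx_ex hH hG
  intro C3 C8 C12 h3 h8 h12
  obtain ⟨e0, M, he0, H⟩ := H C3 C8 C12 h3 h8 h12
  have hcW : 0 < cW C := by unfold cW; positivity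
  obtain ⟨G, hG⟩ : ∃ G : ℝ, G = cW C * (2 ^ 11 * (1 + C12)) := ⟨_, rfl⟩
  have hG0 : 0 < G := by rw [hG]; positivity
  refine ⟨min e0 (1 / (1000 * G)), lt_min he0 (by positivity), fun e he hee => ?_⟩
  have heG : e * G ≤ 1 / 1000 := by
    have : e ≤ 1 / (1000 * G) := hee.trans (min_le_right _ _)
    rw [le_div_iff₀ (by positivity)] at this
    linarith
  obtain ⟨A, hA⟩ : ∃ A : ℝ, A = 173 * (1 + cW C * (2 ^ 11 * (1 + C12))) := ⟨_, rfl⟩
  have hA0 : 0 < A := by rw [hA]; positivity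
  obtain ⟨B, hB⟩ : ∃ B : ℝ, B = 1 + 2 * A / e := ⟨_, rfl⟩
  have hB1 : 1 ≤ B := by
    have : 0 ≤ 2 * A / e := by positivity
    linarith
  have hB0 : 0 < B := by linarith
  obtain ⟨V, hV⟩ : ∃ V : ℝ, V = 2 ^ 38 * (D + 1) * (C + 1) * (2 ^ 22 * (1 + C12 + B ^ 12)) :=
    ⟨_, rfl⟩
  have hV0 : 0 < V := by rw [hV]; positivity
  obtain ⟨R0, hR0⟩ : ∃ R0 : ℝ, R0 = 4000 * V + 4 * B := ⟨_, rfl⟩
  have hR00 : 0 < R0 := by rw [hR0]; positivity
  have q0 : 0 ≤ 2404 * 4 ^ 22 * D * C12 / e := by positivity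
  refine ⟨max (10 + 2404 * 4 ^ 22 * D * C12 / e + R0 ^ 2) M,
    le_max_of_le_left (by have : 0 ≤ R0 ^ 2 := by positivity
                          linarith), fun a ha φ hφ hE L _ => ?_⟩
  have hb := (le_max_left _ _).trans ha.big
  obtain ⟨I0, h⟩ := H e he (hee.trans (min_le_left _ _)) a (Rg.mono ha (le_max_right _ _)) φ hφ hE
  have q2 : 0 ≤ R0 ^ 2 := by positivity
  have hμ0 : 0 < mean a := by linarith
  have h1 : 2404 * 4 ^ 22 * D * C12 ≤ e * mean a := by
    have : 2404 * 4 ^ 22 * D * C12 / e ≤ mean a := by linarith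
    rw [div_le_iff₀ he] at this; linarith
  have h3' : e * mean a ≤ e * mean a ^ 2 := by
    refine mul_le_mul_of_nonneg_left ?_ he.le
    nlinarith
  have hc := h.crude hdif (h1.trans h3') L
  rw [← hA] at hc
  have hr : R0 ≤ √(mean a) := Real.le_sqrt_of_sq_le (by linarith)
  have hr0 : 0 < √(mean a) := by linarith
  have hr2 : √(mean a) ^ 2 = mean a := Real.sq_sqrt hμ0.le
  set z := ((L:ℝ) - mean a) ^ 10 / mean a ^ 5 with hz
  have hz0 : 0 ≤ z := div_nonneg (Even.pow_nonneg (by decide) _) (by positivity)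
  have hez : 0 ≤ e * z := by positivity
  have e1 : 101 / 800 * wt (64 * e) (mean a) L = 101 / 800 + 6464 / 800 * (e * z) := by
    unfold wt; rw [← hz]; ring
  rw [e1]
  rcases le_or_gt (2 * A) (e * z) with h4 | h4
  · linarith
  · have h5 : |(L:ℝ) - mean a| ≤ B * √(mean a) := by
      have e2 : z ≤ B := by
        have : z < 2 * A / e := by rw [lt_div_iff₀ he]; linarith
        linarith
      have e3 : B ≤ B ^ 10 := by
        calc B = B ^ 1 := (pow_one _).symm
          _ ≤ B ^ 10 := pow_le_pow_right₀ hB1 (by norm_num)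
      have e4 : |(L:ℝ) - mean a| ^ 10 ≤ (B * √(mean a)) ^ 10 := by
        rw [Even.pow_abs (by decide), mul_pow]
        have e5 : √(mean a) ^ 10 = mean a ^ 5 := by
          calc √(mean a) ^ 10 = (√(mean a) ^ 2) ^ 5 := by ring
            _ = _ := by rw [hr2]
        rw [e5]
        have e6 : z ≤ B ^ 10 := e2.trans e3
        rwa [hz, div_le_iff₀ (by positivity)] at e6
      exact le_of_pow_le_pow_left₀ (by norm_num) (by positivity) e4
    have h6 := h.fine hdif h5 (by linarith)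
    rw [← hz] at h6
    have h7 : 2 ^ 38 * (D + 1) * (C + 1) / √(mean a) * (2 ^ 22 * (1 + C12 + B ^ 12)) ≤ 1 / 4000 := by
      rw [div_mul_eq_mul_div, ← hV, div_le_iff₀ hr0]
      linarith
    have e2 : e * cW C * (2 ^ 11 * (1 + C12)) = e * G := by rw [hG]; ring
    have e3 : e / 25 * z = 1 / 25 * (e * z) := by ring
    rw [e2, e3] at h6
    linarith

end Pool.Agent.Q2.MK
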