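import Pool.Agent.Q2.MK.Ctx

/-!
# Migdal-Kadanoff project, jobs NTN, NTF: the crude and the fine bound of second differences
-/

namespace Pool.Agent.Q2.MK

open Pool.Agent.Q291.MK Finset

variable {C D C3 C8 C12 e I0 : ℝ} {a φ : ℕ → ℝ}

/-- The constant in front of the fluctuations. -/
noncomputable def cW (C : ℝ) : ℝ := 101 ^ 11 * (C + 1)

lemma Ctx.W (h : Ctx C D C3 C8 C12 e I0 a φ) {K K' : ℕ} (hK1 : K' ≤ K) (hK2 : K ≤ K' + 2)
    (L : ℕ) : H K' L (F0 e (mean (T a))) ≤ 1 + e / 25 * (((L:ℝ) - mean a) ^ 10 / mean a ^ 5) +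
      e * cW C * ((√(mean a) + |(K:ℝ) - mean a|) / √(mean a)) ^ 10 := by
  obtain ⟨h1, h2, -⟩ := h.basic
  exact H_wt h.hC h.hH h.e0.le (by linarith [h.big]) (by linarith) h2 h.near hK1 hK2 L

lemma Ctx.F0_nonneg (h : Ctx C D C3 C8 C12 e I0 a φ) (J : ℕ) : 0 ≤ F0 e (mean (T a)) J := by
  obtain ⟨-, -, -, -, h5⟩ := h.basic
  have := h5 J
  unfold F0; linarith

lemma Ctx.F1_nonneg (h : Ctx C D C3 C8 C12 e I0 a φ) (J : ℕ) :
    0 ≤ F1 e (mean (T a)) √(mean a) J := by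
  obtain ⟨h1, -, -, -, h5⟩ := h.basic
  have := h5 J
  have h6 : 0 ≤ wt e (mean (T a)) J := by linarith
  unfold F1; positivity

lemma Ctx.F2_nonneg (h : Ctx C D C3 C8 C12 e I0 a φ) (J : ℕ) :
    0 ≤ F2 e (mean (T a)) √(mean a) J := by
  obtain ⟨h1, -, -, -, h5⟩ := h.basic
  have := h5 J
  have h6 : 0 ≤ wt e (mean (T a)) J := by linarith
  unfold F2; positivity

/-- Crude bound of the majorant when `K + L` is not small. -/
lemma Ctx.Q_good (h : Ctx C D C3 C8 C12 e I0 a φ) {K L : ℕ}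
    (hn : 3 / 4 * mean a ≤ (K:ℝ) + L) :
    Q e (mean (T a)) √(mean a) K L ≤ 1903 / 100 * (1 + e / 25 * (((L:ℝ) - mean a) ^ 10 / mean a ^ 5) +
      e * cW C * ((√(mean a) + |(K:ℝ) - mean a|) / √(mean a)) ^ 10) := by
  obtain ⟨h1, h2, h3, h4, h5⟩ := h.basic
  have hW0 := h.W (K := K) (K' := K - 1 - 1) (by omega) (by omega) L
  have hW1 := h.W (K := K) (K' := K - 1) (by omega) (by omega) L
  have hW2 := h.W (K := K) (K' := K) (by omega) (by omega) L
  set W := 1 + e / 25 * (((L:ℝ) - mean a) ^ 10 / mean a ^ 5) +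
      e * cW C * ((√(mean a) + |(K:ℝ) - mean a|) / √(mean a)) ^ 10
  set μ := mean a
  set m' := mean (T a)
  set r := √μ
  have hk : (0:ℝ) ≤ K := Nat.cast_nonneg K
  have hl : (0:ℝ) ≤ L := Nat.cast_nonneg L
  set n := (K:ℝ) + L with hnd
  have hn0 : 0 ≤ n := by positivity
  have hm := h.near
  have hb : 10 ^ 6 ≤ μ := h.big
  have hm2 := hm
  rw [abs_le] at hm2
  -- the deviation
  have hdev : ∀ K' : ℕ, K' ≤ K → ∀ j : ℕ, j ≤ K' → j ≤ L →
      |(j:ℝ) - m'| + r ≤ 7 / 10 * (n + 5/2) := by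
    intro K' hK' j hj1 hj2
    have e1 : (j:ℝ) ≤ K := by exact_mod_cast hj1.trans hK'
    have e2 : (j:ℝ) ≤ L := by exact_mod_cast hj2
    have e3 : (0:ℝ) ≤ j := Nat.cast_nonneg j
    have e4 : |(j:ℝ) - m'| ≤ 2 / 3 * n + 1 := by
      rw [abs_le]; constructor <;> linarith [hm2.1, hm2.2]
    linarith
  have g1 : H (K - 1) L (F1 e m' r) ≤ 7 / 5 * (n + 5/2) * W := by
    have e1 := H_mono (K - 1) L (f := F1 e m' r) (g := fun j => 7 / 5 * (n + 5/2) * F0 e m' j)
      (fun j hj1 hj2 => by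
        unfold F1 F0
        have e2 := hdev (K - 1) (by omega) j hj1 hj2
        have e3 := h5 j
        have e4 : 0 ≤ wt e m' j := by linarith
        exact mul_le_mul_of_nonneg_right (by linarith) e4)
    rw [H_const_mul] at e1
    exact e1.trans (mul_le_mul_of_nonneg_left hW1 (by positivity))
  have g2 : H K L (F2 e m' r) ≤ 6 * (7 / 10 * (n + 5/2)) ^ 2 * W := by
    have e1 := H_mono K L (f := F2 e m' r) (g := fun j => 6 * (7 / 10 * (n + 5/2)) ^ 2 * F0 e m' j)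
      (fun j hj1 hj2 => by
        unfold F2 F0
        have e2 := hdev K le_rfl j hj1 hj2
        have e3 := h5 j
        have e4 : 0 ≤ wt e m' j := by linarith
        have e5 : (|(j:ℝ) - m'| + r) ^ 2 ≤ (7 / 10 * (n + 5/2)) ^ 2 :=
          pow_le_pow_left₀ (by positivity) e2 2
        exact mul_le_mul_of_nonneg_right (by linarith) e4)
    rw [H_const_mul] at e1
    exact e1.trans (mul_le_mul_of_nonneg_left hW2 (by positivity))
  have g0 : 0 ≤ H (K - 1 - 1) L (F0 e m') := H_nonneg _ _ fun j _ _ => h.F0_nonneg j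
  have g1' : 0 ≤ H (K - 1) L (F1 e m' r) := H_nonneg _ _ fun j _ _ => h.F1_nonneg j
  have hW : 0 ≤ W := g0.trans hW0
  unfold Q
  rw [← hnd]
  have t0 : kap K (L + 1) * kap (K - 1) L * H (K - 1 - 1) L (F0 e m') ≤ W := by
    have e1 : kap K (L + 1) * kap (K - 1) L ≤ 1 * 1 :=
      mul_le_mul (kap_le_one _ _) (kap_le_one _ _) (kap_nonneg _ _) (by norm_num)
    have e2 : kap K (L + 1) * kap (K - 1) L * H (K - 1 - 1) L (F0 e m') ≤
      1 * 1 * H (K - 1 - 1) L (F0 e m') := mul_le_mul_of_nonneg_right e1 g0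
    linarith
  have t1 : 5 / (n + 5/2) * (kap K L * H (K - 1) L (F1 e m' r)) ≤ 7 * W := by
    have e1 : kap K L * H (K - 1) L (F1 e m' r) ≤ 1 * (7 / 5 * (n + 5/2) * W) :=
      mul_le_mul (kap_le_one _ _) g1 g1' (by norm_num)
    have e2 : 5 / (n + 5/2) * (kap K L * H (K - 1) L (F1 e m' r)) ≤
      5 / (n + 5/2) * (1 * (7 / 5 * (n + 5/2) * W)) := mul_le_mul_of_nonneg_left e1 (by positivity)
    refine e2.trans (le_of_eq ?_)
    field_simp
    try ring
  have t2 : 15 / 4 / ((n + 3) * (n + 4)) * H K L (F2 e m' r) ≤ 1103 / 100 * W := by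
    have e2 : 15 / 4 / ((n + 3) * (n + 4)) * H K L (F2 e m' r) ≤
      15 / 4 / ((n + 3) * (n + 4)) * (6 * (7 / 10 * (n + 5/2)) ^ 2 * W) :=
        mul_le_mul_of_nonneg_left g2 (by positivity)
    refine e2.trans ?_
    have e3 : 15 / 4 / ((n + 3) * (n + 4)) * (6 * (7 / 10 * (n + 5/2)) ^ 2 * W) =
      (15 / 4 * (6 * (7 / 10 * (n + 5/2)) ^ 2) / ((n + 3) * (n + 4))) * W := by ring
    rw [e3]
    refine mul_le_mul_of_nonneg_right ?_ hW
    rw [div_le_iff₀ (by positivity)]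
    nlinarith
  linarith

/-- Crude bound of the majorant when `K + L` is small. -/
lemma Ctx.Q_bad (h : Ctx C D C3 C8 C12 e I0 a φ) {K L : ℕ}
    (hn : (K:ℝ) + L < 3 / 4 * mean a) :
    Q e (mean (T a)) √(mean a) K L ≤ 600 * mean a ^ 7 := by
  obtain ⟨h1, h2, h3, h4, h5⟩ := h.basic
  have hm5 := m'_five (by linarith [h.big]) h.near
  set μ := mean a
  set m' := mean (T a)
  set r := √μ
  have hk : (0:ℝ) ≤ K := Nat.cast_nonneg K
  have hl : (0:ℝ) ≤ L := Nat.cast_nonneg L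
  set n := (K:ℝ) + L with hnd
  have hn0 : 0 ≤ n := by positivity
  have hm2 := h.near
  have hb : 10 ^ 6 ≤ μ := h.big
  have hμ0 : 0 < μ := by linarith
  rw [abs_le] at hm2
  have hdev : ∀ K' : ℕ, K' ≤ K → ∀ j : ℕ, j ≤ K' → |(j:ℝ) - m'| ≤ μ := by
    intro K' hK' j hj1
    have e1 : (j:ℝ) ≤ K := by exact_mod_cast hj1.trans hK'
    have e3 : (0:ℝ) ≤ j := Nat.cast_nonneg j
    rw [abs_le]; constructor <;> linarith [hm2.1, hm2.2]
  have hw : ∀ K' : ℕ, K' ≤ K → ∀ j : ℕ, j ≤ K' → wt e m' j ≤ 35 * μ ^ 5 := by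
    intro K' hK' j hj1
    have e1 := hdev K' hK' j hj1
    have e2 : ((j:ℝ) - m') ^ 10 ≤ μ ^ 10 := by
      rw [← Even.pow_abs (by decide)]; exact pow_le_pow_left₀ (abs_nonneg _) e1 10
    have e3 : ((j:ℝ) - m') ^ 10 / m' ^ 5 ≤ μ ^ 10 * ((101 / 50) ^ 5 / μ ^ 5) := by
      rw [div_eq_mul_one_div]
      exact mul_le_mul e2 hm5.2 (by positivity) (by positivity)
    have e4 : μ ^ 10 * ((101 / 50) ^ 5 / μ ^ 5) = (101 / 50) ^ 5 * μ ^ 5 := by field_simp
    have e5 : e * (((j:ℝ) - m') ^ 10 / m' ^ 5) ≤ 1 * (((j:ℝ) - m') ^ 10 / m' ^ 5) :=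
      mul_le_mul_of_nonneg_right h.e1 (div_nonneg (Even.pow_nonneg (by decide) _) hm5.1.le)
    have e6 : (1:ℝ) ≤ μ ^ 5 := one_le_pow₀ (by linarith)
    have e7 : (101 / 50 : ℝ) ^ 5 ≤ 34 := by norm_num
    have e8 : (101 / 50 : ℝ) ^ 5 * μ ^ 5 ≤ 34 * μ ^ 5 := mul_le_mul_of_nonneg_right e7 (by positivity)
    unfold wt
    linarith
  have hμ7 : 0 < μ ^ 7 := by positivity
  have hμ5 : μ ^ 5 ≤ μ ^ 7 := pow_le_pow_right₀ (by linarith) (by norm_num)
  have hμ6 : μ ^ 6 ≤ μ ^ 7 := pow_le_pow_right₀ (by linarith) (by norm_num)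
  have hrμ : r ≤ μ := by linarith
  have g0 : H (K - 1 - 1) L (F0 e m') ≤ 35 * μ ^ 7 :=
    H_le_const _ _ fun j hj _ => (hw (K - 1 - 1) (by omega) j hj).trans (by linarith)
  have g1 : H (K - 1) L (F1 e m' r) ≤ 140 * μ ^ 7 :=
    H_le_const _ _ fun j hj _ => by
      unfold F1
      have e1 := hw (K - 1) (by omega) j hj
      have e2 := hdev (K - 1) (by omega) j hj
      have e3 := h5 j
      calc 2 * (|(j:ℝ) - m'| + r) * wt e m' j ≤ 2 * (μ + μ) * (35 * μ ^ 5) :=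
            mul_le_mul (by linarith) e1 (by linarith) (by positivity)
        _ = 140 * μ ^ 6 := by ring
        _ ≤ _ := by linarith
  have g2 : H K L (F2 e m' r) ≤ 840 * μ ^ 7 :=
    H_le_const _ _ fun j hj _ => by
      unfold F2
      have e1 := hw K le_rfl j hj
      have e2 := hdev K le_rfl j hj
      have e3 := h5 j
      have e4 : (|(j:ℝ) - m'| + r) ^ 2 ≤ (μ + μ) ^ 2 :=
        pow_le_pow_left₀ (by positivity) (by linarith) 2
      calc 6 * (|(j:ℝ) - m'| + r) ^ 2 * wt e m' j ≤ 6 * (μ + μ) ^ 2 * (35 * μ ^ 5) :=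
            mul_le_mul (by linarith) e1 (by linarith) (by positivity)
        _ = _ := by ring
  have g0' : 0 ≤ H (K - 1 - 1) L (F0 e m') := H_nonneg _ _ fun j _ _ => h.F0_nonneg j
  have g1' : 0 ≤ H (K - 1) L (F1 e m' r) := H_nonneg _ _ fun j _ _ => h.F1_nonneg j
  have g2' : 0 ≤ H K L (F2 e m' r) := H_nonneg _ _ fun j _ _ => h.F2_nonneg j
  unfold Q
  rw [← hnd]
  have t0 : kap K (L + 1) * kap (K - 1) L * H (K - 1 - 1) L (F0 e m') ≤ 35 * μ ^ 7 := by
    have e1 : kap K (L + 1) * kap (K - 1) L ≤ 1 * 1 :=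
      mul_le_mul (kap_le_one _ _) (kap_le_one _ _) (kap_nonneg _ _) (by norm_num)
    have e2 : kap K (L + 1) * kap (K - 1) L * H (K - 1 - 1) L (F0 e m') ≤
      1 * 1 * H (K - 1 - 1) L (F0 e m') := mul_le_mul_of_nonneg_right e1 g0'
    linarith
  have t1 : 5 / (n + 5/2) * (kap K L * H (K - 1) L (F1 e m' r)) ≤ 2 * (1 * (140 * μ ^ 7)) := by
    refine mul_le_mul ?_ (mul_le_mul (kap_le_one _ _) g1 g1' (by norm_num))
      (mul_nonneg (kap_nonneg _ _) g1') (by norm_num)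
    rw [div_le_iff₀ (by positivity)]; linarith
  have t2 : 15 / 4 / ((n + 3) * (n + 4)) * H K L (F2 e m' r) ≤ 5 / 16 * (840 * μ ^ 7) := by
    refine mul_le_mul ?_ g2 g2' (by norm_num)
    rw [div_le_iff₀ (by positivity)]; nlinarith
  linarith

/-- The crude bound. -/
lemma Ctx.crude (hdif : P_DIF) (h : Ctx C D C3 C8 C12 e I0 a φ)
    (hfar : 2404 * 4 ^ 22 * D * C12 ≤ e * mean a ^ 2) (L : ℕ) :
    |dl (dl (TT a φ)) L| ≤ 173 * (1 + cW C * (2 ^ 11 * (1 + C12))) +
      15 / 2 * (e * (((L:ℝ) - mean a) ^ 10 / mean a ^ 5)) := by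
  obtain ⟨h1, h2, h3, h4, h5⟩ := h.basic
  have hA := h.cl.toCls.toAM
  have hb : 10 ^ 6 ≤ mean a := h.big
  have hμ0 : 0 < mean a := by linarith
  have hr0 : 0 < √(mean a) := by linarith
  have hcW : 0 ≤ cW C := by unfold cW; have := h.hC; positivity
  set z := ((L:ℝ) - mean a) ^ 10 / mean a ^ 5 with hz
  have hz0 : 0 ≤ z := div_nonneg (Even.pow_nonneg (by decide) _) (by positivity)
  have he := h.e0
  have hD := h.hD
  have h12 := h.h12
  have pt : PB (fun K : ℕ => ((√(mean a) + |(K:ℝ) - mean a|) / √(mean a)) ^ 10) := by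
    refine PB.pow ?_ 10
    simpa [div_eq_mul_inv] using ((PB.const √(mean a)).add (PBx (mean a))).mul
      (PB.const (√(mean a))⁻¹)
  have pu := (PBu (mean a) √(mean a)).pow 12
  -- a common majorant
  have key : ∀ c : ℝ, 0 ≤ c →
      (∀ K : ℕ, (K:ℝ) + L < 3 / 4 * mean a → 600 * D * mean a ^ 9 ≤
        c * (|(K:ℝ) - mean a| / √(mean a)) ^ 12) →
      |dl (dl (TT a φ)) L| ≤ 173 * (1 + cW C * (2 ^ 11 * (1 + C12))) + 7 * (e * z) +
        2000 / 999 * (c * C12) := by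
    intro c hc hcK
    have hP : PB (fun K : ℕ => 86 * (1 + e / 25 * z) +
        86 * (e * cW C) * ((√(mean a) + |(K:ℝ) - mean a|) / √(mean a)) ^ 10 +
        c * (|(K:ℝ) - mean a| / √(mean a)) ^ 12) :=
      ((PB.const _).add ((PB.const _).mul pt)).add ((PB.const _).mul pu)
    have h6 := h.dd hdif L hP (fun K => by
      have hu : 0 ≤ (|(K:ℝ) - mean a| / √(mean a)) ^ 12 := by positivity
      have ht : 0 ≤ ((√(mean a) + |(K:ℝ) - mean a|) / √(mean a)) ^ 10 := by positivity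
      have h0 : 0 ≤ I (K + L) / I0 := (div_pos (I_pos _) h.rho.pos).le
      have hQ0 : 0 ≤ Q e (mean (T a)) √(mean a) K L := by
        unfold Q
        have g0' : 0 ≤ H (K - 1 - 1) L (F0 e (mean (T a))) :=
          H_nonneg _ _ fun j _ _ => h.F0_nonneg j
        have g1' : 0 ≤ H (K - 1) L (F1 e (mean (T a)) √(mean a)) :=
          H_nonneg _ _ fun j _ _ => h.F1_nonneg j
        have g2' : 0 ≤ H K L (F2 e (mean (T a)) √(mean a)) :=
          H_nonneg _ _ fun j _ _ => h.F2_nonneg j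
        have := kap_nonneg K (L + 1)
        have := kap_nonneg (K - 1) L
        have := kap_nonneg K L
        positivity
      rcases le_or_gt (3 / 4 * mean a) ((K:ℝ) + L) with hn | hn
      · have e1 := h.rho.half (K + L) (by push_cast; exact hn)
        have e2 := h.Q_good hn
        rw [← hz] at e2
        have e3 := mul_le_mul e1 e2 hQ0 (by norm_num)
        refine e3.trans ?_
        have e4 : 0 ≤ 1 + e / 25 * z + e * cW C *
          ((√(mean a) + |(K:ℝ) - mean a|) / √(mean a)) ^ 10 := by positivity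
        have e5 : 0 ≤ c * (|(K:ℝ) - mean a| / √(mean a)) ^ 12 := by positivity
        linarith
      · have e1 := h.rho.all (K + L)
        have e2 := h.Q_bad hn
        have e3 := mul_le_mul e1 e2 hQ0 (by positivity)
        refine e3.trans ?_
        have e4 := hcK K hn
        have e5 : 0 ≤ 86 * (1 + e / 25 * z) +
          86 * (e * cW C) * ((√(mean a) + |(K:ℝ) - mean a|) / √(mean a)) ^ 10 := by positivity
        have e6 : D * mean a ^ 2 * (600 * mean a ^ 7) = 600 * D * mean a ^ 9 := by ring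
        rw [e6]; linarith)
    refine h6.trans ?_
    rw [hA.E_add ((PB.const _).add ((PB.const _).mul pt)) ((PB.const _).mul pu),
      hA.E_add (PB.const _) ((PB.const _).mul pt), hA.toLaw.E_const, E_const_mul, E_const_mul]
    have e1 := h.tau
    have e2 := h.m12
    have e3 := mul_le_mul_of_nonneg_left e1 (by positivity : 0 ≤ 86 * (e * cW C))
    have e4 := mul_le_mul_of_nonneg_left e2 hc
    have e5 : e * cW C * (2 ^ 11 * (1 + C12)) ≤ 1 * (cW C * (2 ^ 11 * (1 + C12))) := by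
      rw [mul_assoc]
      exact mul_le_mul_of_nonneg_right h.e1 (by positivity)
    have e6 : 0 ≤ cW C * (2 ^ 11 * (1 + C12)) := by positivity
    have e7 : 0 ≤ e * z := by positivity
    have e8 : 86 * (e * cW C) * (2 ^ 11 * (1 + C12)) = 86 * (e * cW C * (2 ^ 11 * (1 + C12))) := by
      ring
    have e9 : e / 25 * z = 1 / 25 * (e * z) := by ring
    rw [e8] at e3
    rw [e9]
    linarith
  have ez : 0 ≤ e * z := by positivity
  rcases le_or_gt |(L:ℝ) - mean a| (mean a / 4) with hL | hL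
  · have h6 := key 0 le_rfl (fun K hK => by
      exfalso
      rw [abs_le] at hL
      have : (0:ℝ) ≤ K := Nat.cast_nonneg K
      linarith [hL.1])
    linarith
  · have h6 := key (600 * D * 4 ^ 12 * mean a ^ 3) (by positivity) (fun K hK => by
      have hl : (0:ℝ) ≤ L := Nat.cast_nonneg L
      have hk : (0:ℝ) ≤ K := Nat.cast_nonneg K
      have e1 : mean a / 4 ≤ |(K:ℝ) - mean a| := by
        have := neg_le_abs ((K:ℝ) - mean a)
        linarith
      have e2 : √(mean a) / 4 ≤ |(K:ℝ) - mean a| / √(mean a) := by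
        rw [le_div_iff₀ hr0]
        calc √(mean a) / 4 * √(mean a) = √(mean a) ^ 2 / 4 := by ring
          _ = mean a / 4 := by rw [h2]
          _ ≤ _ := e1
      have e3 : (√(mean a) / 4) ^ 12 ≤ (|(K:ℝ) - mean a| / √(mean a)) ^ 12 :=
        pow_le_pow_left₀ (by positivity) e2 12
      have e4 : (√(mean a) / 4) ^ 12 = mean a ^ 6 / 4 ^ 12 := by
        calc (√(mean a) / 4) ^ 12 = (√(mean a) ^ 2) ^ 6 / 4 ^ 12 := by ring
          _ = _ := by rw [h2]
      rw [e4] at e3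
      have e5 := mul_le_mul_of_nonneg_left e3
        (by positivity : 0 ≤ 600 * D * 4 ^ 12 * mean a ^ 3)
      refine le_trans (le_of_eq ?_) e5
      field_simp)
    have e1 : mean a ^ 5 / 4 ^ 10 ≤ z := by
      rw [hz, le_div_iff₀ (by positivity)]
      have e2 : (mean a / 4) ^ 10 ≤ |(L:ℝ) - mean a| ^ 10 :=
        pow_le_pow_left₀ (by positivity) hL.le 10
      rw [Even.pow_abs (by decide)] at e2
      refine le_trans (le_of_eq ?_) e2
      ring
    have e2 : e * (mean a ^ 5 / 4 ^ 10) ≤ e * z := mul_le_mul_of_nonneg_left e1 he.le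
    have e3 := mul_le_mul_of_nonneg_right hfar (by positivity : 0 ≤ mean a ^ 3 / 4 ^ 10)
    have e4 : 2404 * 4 ^ 22 * D * C12 * (mean a ^ 3 / 4 ^ 10) =
      2404 * 4 ^ 12 * (D * C12 * mean a ^ 3) := by ring
    have e5 : e * mean a ^ 2 * (mean a ^ 3 / 4 ^ 10) = e * (mean a ^ 5 / 4 ^ 10) := by ring
    rw [e4, e5] at e3
    have e6 : 2000 / 999 * (600 * D * 4 ^ 12 * mean a ^ 3 * C12) =
      1200000 / 999 * 4 ^ 12 * (D * C12 * mean a ^ 3) := by ring
    rw [e6] at h6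
    have e7 : 0 ≤ D * C12 * mean a ^ 3 := by positivity
    linarith

end Pool.Agent.Q2.MK
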