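import Pool.Agent.Q2.MK.Tool

/-!
# Migdal-Kadanoff project, jobs NTN, NTF, NTB: the weight `I`, the coefficient `kap`, differences
-/

namespace Pool.Agent.Q2.MK

open Pool.Agent.Q291.MK Finset

structure Rho (D μ I0 : ℝ) : Prop where
  pos : 0 < I0
  all : ∀ n : ℕ, I n / I0 ≤ D * μ ^ 2
  half : ∀ n : ℕ, 3 / 4 * μ ≤ n → I n / I0 ≤ 9 / 2
  near : ∀ n : ℕ, 3 / 4 * μ ≤ n → I n / I0 ≤ 1 + D * ((|(n:ℝ) - 2 * μ| + 1) / μ)
  low : ∀ n : ℕ, 1 - 3 / 4 * (((n:ℝ) - 2 * μ) / μ) - D * (|(n:ℝ) - 2 * μ| ^ 3 / μ ^ 3 +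
    |(n:ℝ) - 2 * μ| / μ ^ 2 + 1 / μ) ≤ I n / I0

lemma rho_ex : ∃ D : ℝ, 0 < D ∧ ∀ μ : ℝ, 10 ≤ μ → ∃ I0 : ℝ, Rho D μ I0 := by
  obtain ⟨D, hD, h⟩ := Pool.Agent.Q280.MK.t_RHO
  refine ⟨2 * D + 6, by positivity, fun μ hμ => ?_⟩
  obtain ⟨I0, c0, hI0, hc0, h1, h2⟩ := h μ hμ
  have hμ0 : 0 < μ := by linarith
  have hinv : 0 < 1 / μ := by positivity
  have hinv2 : 1 / μ ^ 2 ≤ 1 / μ := by
    apply one_div_le_one_div_of_le hμ0
    nlinarith
  have hc1 : D / μ = D * (1 / μ) := by ring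
  rw [hc1, abs_le] at hc0
  refine ⟨I0, hI0, fun n => (h1 n).trans ?_, fun n hn => (h2 n hn).1, fun n hn => ?_, fun n => ?_⟩
  · exact mul_le_mul_of_nonneg_right (by linarith) (by positivity)
  · obtain ⟨h3, h4⟩ := h2 n hn
    set X := (n:ℝ) - 2 * μ with hX
    set b := |X| / μ with hb
    have hb0 : 0 ≤ b := by positivity
    have e1 : (|X| + 1) / μ = b + 1 / μ := by rw [hb]; ring
    rw [e1]
    rcases le_total b 1 with h5 | h5
    · rw [abs_le] at h4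
      have h6 : |X| ^ 3 / μ ^ 3 = b ^ 3 := by rw [hb, div_pow]
      have h7 : |X| / μ ^ 2 = b * (1 / μ) := by rw [hb]; field_simp
      have h8 : (X / μ) ^ 2 = b ^ 2 := by rw [hb, div_pow, div_pow, sq_abs]
      have h9 : -(X / μ) ≤ b := by
        rw [hb, ← neg_div]; gcongr; exact neg_le_abs X
      rw [h6, h7, h8] at h4
      have h10 : b ^ 2 ≤ b := by nlinarith
      have h11 : b ^ 3 ≤ b := by nlinarith
      have h12 : 1 / μ ≤ 1 := by rw [div_le_one hμ0]; linarith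
      have h13 : b * (1 / μ) ≤ b := mul_le_of_le_one_right hb0 h12
      have h14 : D * (b ^ 3 + b * (1 / μ) + 1 / μ ^ 2) ≤ D * (b + b + 1 / μ) :=
        mul_le_mul_of_nonneg_left (by linarith) hD.le
      have h15 : 0 ≤ D * b := by positivity
      have h16 : 0 ≤ D * (1 / μ) := by positivity
      have e2 : (2 * D + 6) * (b + 1 / μ) = 2 * (D * b) + 2 * (D * (1 / μ)) + 6 * b + 6 * (1 / μ) := by
        ring
      have e3 : D * (b + b + 1 / μ) = 2 * (D * b) + D * (1 / μ) := by ring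
      rw [e2]
      rw [e3] at h14
      linarith [h4.2, hc0.2]
    · have h15 : 0 ≤ D * b := by positivity
      have h16 : 0 ≤ D * (1 / μ) := by positivity
      have e2 : (2 * D + 6) * (b + 1 / μ) = 2 * (D * b) + 2 * (D * (1 / μ)) + 6 * b + 6 * (1 / μ) := by
        ring
      rw [e2]
      linarith
  · set X := (n:ℝ) - 2 * μ with hX
    set b := |X| / μ with hb
    have hb0 : 0 ≤ b := by positivity
    have h6 : |X| ^ 3 / μ ^ 3 = b ^ 3 := by rw [hb, div_pow]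
    have h7 : |X| / μ ^ 2 = b * (1 / μ) := by rw [hb]; field_simp
    have hn0 : (0:ℝ) ≤ n := Nat.cast_nonneg n
    rcases le_or_gt (3 / 4 * μ) n with hn | hn
    · obtain ⟨h3, h4⟩ := h2 n hn
      rw [h6, h7] at h4 ⊢
      rw [abs_le] at h4
      have h8 : 0 ≤ (X / μ) ^ 2 := sq_nonneg _
      have h14 : D * (b ^ 3 + b * (1 / μ) + 1 / μ ^ 2) ≤ D * (b ^ 3 + b * (1 / μ) + 1 / μ) :=
        mul_le_mul_of_nonneg_left (by linarith) hD.le
      have h15 : 0 ≤ D * (b ^ 3 + b * (1 / μ)) := by positivity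
      have h16 : 0 ≤ (b ^ 3 + b * (1 / μ) + 1 / μ) := by positivity
      have e2 : (2 * D + 6) * (b ^ 3 + b * (1 / μ) + 1 / μ) =
        D * (b ^ 3 + b * (1 / μ) + 1 / μ) + D * (b ^ 3 + b * (1 / μ)) + D * (1 / μ) +
        6 * (b ^ 3 + b * (1 / μ) + 1 / μ) := by ring
      rw [e2]
      linarith [h4.1, hc0.1]
    · have h8 : 0 ≤ I n / I0 := (div_pos (I_pos n) hI0).le
      refine le_trans ?_ h8
      rw [h6, h7]
      have hXn : X < 0 := by linarith
      have h9 : |X| = -X := abs_of_neg hXn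
      have h10 : -(X / μ) = b := by rw [hb, h9]; ring
      have h11 : 5 / 4 ≤ b := by rw [hb, le_div_iff₀ hμ0, h9]; linarith
      have h12 : 25 / 16 * b ≤ b ^ 3 := by
        have : 25 / 16 ≤ b ^ 2 := by nlinarith
        calc 25 / 16 * b ≤ b ^ 2 * b := mul_le_mul_of_nonneg_right this hb0
          _ = b ^ 3 := by ring
      have h15 : 0 ≤ D * (b ^ 3 + b * (1 / μ) + 1 / μ) := by positivity
      have h16 : 0 ≤ b * (1 / μ) + 1 / μ := by positivity
      have e2 : (2 * D + 6) * (b ^ 3 + b * (1 / μ) + 1 / μ) =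
        2 * (D * (b ^ 3 + b * (1 / μ) + 1 / μ)) + 6 * b ^ 3 + 6 * (b * (1 / μ) + 1 / μ) := by ring
      rw [e2]
      linarith

/-- The normalisation is close to `I0`. -/
lemma Z_low {C3 C8 D I0 : ℝ} {a : ℕ → ℝ} (ha : Cls C3 C8 a) (hμ : 10 ≤ mean a) (hD : 0 < D)
    (hI : Rho D (mean a) I0) (hC8 : 0 ≤ C8) :
    1 - 1536 * D * (C8 + 1) / mean a ≤ E2 a (fun K L => I (K + L)) / I0 := by
  have hA := ha.toAM
  obtain ⟨h1, -, h3, -⟩ := Pool.Agent.Q150.MK.t_EXPM C3 C8 a ha (by linarith)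
  set μ := mean a with hm
  set r := √μ with hr
  have hμ0 : 0 < μ := by linarith
  have hr0 : 0 < r := Real.sqrt_pos.2 hμ0
  have hr2 : r ^ 2 = μ := Real.sq_sqrt hμ0.le
  have hr1 : 1 ≤ r := by
    rw [hr, Real.one_le_sqrt]; linarith
  have px : PB (fun k => (k:ℝ) - μ) := PB.id.sub (PB.const _)
  have pX : PB2 (fun K L => (K:ℝ) + L - 2 * μ) := by
    have := (PB2.fst px).add (PB2.snd px)
    refine this.abs.of_le fun K L => le_of_eq ?_
    congr 1; ring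
  have m1 : E2 a (fun K L => |(K:ℝ) + L - 2 * μ|) ≤ 512 * (C8 + 1) * r := by
    have h4 := h1 1 (by norm_num)
    simp only [pow_one] at h4
    refine le_trans ?_ h4
    refine hA.E2_mono pX.abs ((PB2.fst px.abs).add (PB2.snd px.abs)) fun K L => ?_
    have : (K:ℝ) + L - 2 * μ = (K - μ) + (L - μ) := by ring
    rw [this]; exact abs_add_le _ _
  have m3 : E2 a (fun K L => |(K:ℝ) + L - 2 * μ| ^ 3) ≤ 512 * (C8 + 1) * r ^ 3 := by
    have h4 := h1 3 (by norm_num)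
    refine le_trans ?_ h4
    refine hA.E2_mono (pX.abs.pow 3) (((PB2.fst px.abs).add (PB2.snd px.abs)).pow 3) fun K L => ?_
    have : (K:ℝ) + L - 2 * μ = (K - μ) + (L - μ) := by ring
    rw [this]
    exact pow_le_pow_left₀ (abs_nonneg _) (abs_add_le _ _) 3
  -- the lower bound
  have e1 : E2 a (fun K L => I (K + L)) / I0 = E2 a (fun K L => 1 / I0 * I (K + L)) := by
    rw [E2_const_mul]; ring
  have pI : PB2 (fun K L => 1 / I0 * I (K + L)) := (PB2.const _).mul PB2.I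
  have p3 : PB2 (fun K L => D / μ ^ 3 * |(K:ℝ) + L - 2 * μ| ^ 3) :=
    (PB2.const _).mul (pX.abs.pow 3)
  have p1 : PB2 (fun K L => D / μ ^ 2 * |(K:ℝ) + L - 2 * μ|) := (PB2.const _).mul pX.abs
  have p0 : PB2 (fun K L => 3 / 4 / μ * ((K:ℝ) + L - 2 * μ)) := (PB2.const _).mul pX
  have h5 := hA.E2_mono ((((PB2.const (1 - D / μ)).sub p0).sub p3).sub p1) pI
    (fun K L => by
      have h6 := hI.low (K + L)
      push_cast at h6
      have e2 : 1 / I0 * I (K + L) = I (K + L) / I0 := by ring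
      rw [e2]
      refine le_trans (le_of_eq ?_) h6
      ring)
  rw [hA.E2_sub (((PB2.const (1 - D / μ)).sub p0).sub p3) p1,
    hA.E2_sub ((PB2.const (1 - D / μ)).sub p0) p3, hA.E2_sub (PB2.const (1 - D / μ)) p0,
    hA.E2_cst, E2_const_mul, E2_const_mul, E2_const_mul, h3] at h5
  rw [e1]
  refine le_trans ?_ h5
  have h7 : D / μ ^ 3 * E2 a (fun K L => |(K:ℝ) + L - 2 * μ| ^ 3) ≤ 512 * (C8 + 1) * (D / μ) := by
    have h8 : D / μ ^ 3 * E2 a (fun K L => |(K:ℝ) + L - 2 * μ| ^ 3) ≤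
        D / μ ^ 3 * (512 * (C8 + 1) * r ^ 3) := mul_le_mul_of_nonneg_left m3 (by positivity)
    refine h8.trans ?_
    have h9 : D / μ ^ 3 * (512 * (C8 + 1) * r ^ 3) = 512 * (C8 + 1) * (D / μ) * (1 / r) := by
      rw [← hr2]; field_simp
    rw [h9]
    refine mul_le_of_le_one_right (by positivity) ?_
    rw [div_le_one hr0]; exact hr1
  have h8 : D / μ ^ 2 * E2 a (fun K L => |(K:ℝ) + L - 2 * μ|) ≤ 512 * (C8 + 1) * (D / μ) := by
    have h8 : D / μ ^ 2 * E2 a (fun K L => |(K:ℝ) + L - 2 * μ|) ≤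
        D / μ ^ 2 * (512 * (C8 + 1) * r) := mul_le_mul_of_nonneg_left m1 (by positivity)
    refine h8.trans ?_
    have h9 : D / μ ^ 2 * (512 * (C8 + 1) * r) = 512 * (C8 + 1) * (D / μ) * (1 / r) := by
      rw [← hr2]; field_simp
    rw [h9]
    refine mul_le_of_le_one_right (by positivity) ?_
    rw [div_le_one hr0]; exact hr1
  have h9 : 0 ≤ C8 * (D / μ) := by positivity
  have h10 : 0 ≤ D / μ := by positivity
  have e3 : 1536 * D * (C8 + 1) / μ = 1536 * (C8 * (D / μ)) + 1536 * (D / μ) := by ring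
  have e4 : 512 * (C8 + 1) * (D / μ) = 512 * (C8 * (D / μ)) + 512 * (D / μ) := by ring
  rw [e4] at h7 h8
  rw [e3]
  linarith

/-! ### The coefficient -/

lemma kap_nonneg (K L : ℕ) : 0 ≤ kap K L := by unfold kap; positivity

lemma kap_le_one (K L : ℕ) : kap K L ≤ 1 := by
  have hk : (0:ℝ) ≤ K := Nat.cast_nonneg K
  have hl : (0:ℝ) ≤ L := Nat.cast_nonneg L
  unfold kap
  rw [div_le_one (by positivity)]
  nlinarith [mul_nonneg hk hl]

lemma kap_near {μ : ℝ} (K L : ℕ) (h : 3 / 4 * μ ≤ (K:ℝ) + L) (hμ : 0 < μ) :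
    |kap K L - 1 / 4| ≤ (|(K:ℝ) - μ| + |(L:ℝ) - μ| + 1) / μ := by
  have hk : (0:ℝ) ≤ K := Nat.cast_nonneg K
  have hl : (0:ℝ) ≤ L := Nat.cast_nonneg L
  set w := |(K:ℝ) - μ| + |(L:ℝ) - μ| with hw
  have hw0 : 0 ≤ w := by positivity
  have hKL : |(K:ℝ) - L| ≤ w := by
    have : (K:ℝ) - L = (K - μ) - (L - μ) := by ring
    rw [this]; exact abs_sub _ _
  set n := (K:ℝ) + L with hn
  have hn0 : 0 ≤ n := by positivity
  have e1 : kap K L - 1 / 4 = (((K:ℝ) - L) * (3 * K + L) - 2 * L - 3 / 4) /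
      (4 * ((n + 1/2) * (n + 3/2))) := by
    unfold kap
    rw [← hn]
    field_simp
    rw [hn]; ring
  have h1 : |((K:ℝ) - L) * (3 * K + L) - 2 * L - 3 / 4| ≤ 3 * n * w + 2 * n + 3 / 4 := by
    have h2 : |((K:ℝ) - L) * (3 * K + L)| ≤ w * (3 * n) := by
      rw [abs_mul, abs_of_nonneg (by positivity : (0:ℝ) ≤ 3 * K + L)]
      exact mul_le_mul hKL (by linarith) (by positivity) hw0
    rw [abs_le] at h2 ⊢
    constructor <;> nlinarith [h2.1, h2.2]
  rw [e1, abs_div, abs_of_pos (by positivity : (0:ℝ) < 4 * ((n + 1/2) * (n + 3/2))),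
    div_le_div_iff₀ (by positivity) hμ]
  have h3 : 0 ≤ 3 * n * w + 2 * n + 3 / 4 := by positivity
  calc |((K:ℝ) - L) * (3 * K + L) - 2 * L - 3 / 4| * μ ≤ (3 * n * w + 2 * n + 3 / 4) * (4 / 3 * n) :=
        mul_le_mul h1 (by linarith) hμ.le h3
    _ ≤ (w + 1) * (4 * ((n + 1/2) * (n + 3/2))) := by
        have h4 : 0 ≤ n * w := by positivity
        have e2 : (w + 1) * (4 * ((n + 1/2) * (n + 3/2))) = 4 * (n * w) * n + 8 * (n * w) + 3 * w +
          4 * n ^ 2 + 8 * n + 3 := by ring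
        have e3 : (3 * n * w + 2 * n + 3 / 4) * (4 / 3 * n) =
          4 * (n * w) * n + 8 / 3 * n ^ 2 + n := by ring
        have h5 : 0 ≤ n ^ 2 := by positivity
        rw [e2, e3]; linarith

/-! ### Differences of `TT` -/

lemma PB2.slice {ψ : ℕ → ℕ → ℝ} (h : PB2 ψ) (L : ℕ) : PB (fun K => ψ K L) := by
  obtain ⟨C, q, h⟩ := h
  refine ⟨C * (1 + (L:ℝ)) ^ q, q, fun K => (h K L).trans (le_of_eq ?_)⟩
  rw [mul_pow]; ring

lemma PB2_f {φ : ℕ → ℝ} (h : PB φ) (t : ℝ) : PB2 (fun K L => I (K + L) * (H K L φ - t)) :=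
  PB2.I.mul ((Pool.Agent.Q222.MK.PB2_H hyp1 h).sub (PB2.const t))

lemma dTT {a : ℕ → ℝ} (hA : AM a) {φ : ℕ → ℝ} (h : PB φ) (L : ℕ) :
    dl (TT a φ) L = 2 * E a (fun K => dl (fun L => I (K + L) * (H K L φ - E (T a) φ)) L) /
      E2 a (fun K L => I (K + L)) := by
  have p := PB2_f h (E (T a) φ)
  unfold dl TT
  rw [hA.E_sub (PB2.slice p (L + 1)) (PB2.slice p L)]
  ring

lemma ddTT {a : ℕ → ℝ} (hA : AM a) {φ : ℕ → ℝ} (h : PB φ) (L : ℕ) :
    dl (dl (TT a φ)) L =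
      2 * E a (fun K => dl (dl (fun L => I (K + L) * (H K L φ - E (T a) φ))) L) /
      E2 a (fun K L => I (K + L)) := by
  have p := PB2_f h (E (T a) φ)
  have e : ∀ g : ℕ → ℝ, ∀ l, dl g l = g (l + 1) - g l := fun g l => rfl
  have e0 : E a (fun K => dl (dl (fun L => I (K + L) * (H K L φ - E (T a) φ))) L) =
      E a (fun K => dl (fun L => I (K + L) * (H K L φ - E (T a) φ)) (L + 1)) -
      E a (fun K => dl (fun L => I (K + L) * (H K L φ - E (T a) φ)) L) := by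
    have p1 : PB (fun K => dl (fun L => I (K + L) * (H K L φ - E (T a) φ)) (L + 1)) :=
      (PB2.slice p (L + 1 + 1)).sub (PB2.slice p (L + 1))
    have p2 : PB (fun K => dl (fun L => I (K + L) * (H K L φ - E (T a) φ)) L) :=
      (PB2.slice p (L + 1)).sub (PB2.slice p L)
    rw [← hA.E_sub p1 p2]
    rfl
  rw [e (dl (TT a φ)) L, dTT hA h (L + 1), dTT hA h L, e0]
  ring

/-- Pointwise bound of the second difference. -/
lemma dd_bound (hdif : P_DIF) (K L : ℕ) {φ : ℕ → ℝ} {t : ℝ} {F0 F1 F2 : ℕ → ℝ}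
    (h0 : ∀ J, |dl (dl φ) J| ≤ F0 J) (h1 : ∀ J, |dl φ J| ≤ F1 J) (h2 : ∀ J, |φ J - t| ≤ F2 J) :
    |dl (dl (fun L => I (K + L) * (H K L φ - t))) L| ≤
      I (K + L) * (kap K (L + 1) * kap (K - 1) L * H (K - 1 - 1) L F0 +
        5 / ((K:ℝ) + L + 5/2) * (kap K L * H (K - 1) L F1) +
        15 / 4 / (((K:ℝ) + L + 3) * (K + L + 4)) * H K L F2) := by
  have hk : (0:ℝ) ≤ K := Nat.cast_nonneg K
  have hl : (0:ℝ) ≤ L := Nat.cast_nonneg L
  rw [(hdif K L φ).2.2 t |>.2]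
  have g0 := H_abs_le (K - 1 - 1) L (fun j _ _ => h0 j)
  have g1 := H_abs_le (K - 1) L (fun j _ _ => h1 j)
  have g2 : |H K L φ - t| ≤ H K L F2 := by
    have e : H K L φ - t = H K L (fun j => φ j - t) := by rw [H_sub, H_const]
    rw [e]; exact H_abs_le K L (fun j _ _ => h2 j)
  set n := (K:ℝ) + L with hn
  have hn0 : 0 ≤ n := by positivity
  have i0 := I_pos (K + L)
  have i1 : I (K + L + 1) ≤ I (K + L) := I_anti (by omega)
  have i2 : I (K + L + 2) ≤ I (K + L) := I_anti (by omega)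
  have i1' := I_pos (K + L + 1)
  have i2' := I_pos (K + L + 2)
  have k0 := kap_nonneg K L
  have k1 := kap_nonneg K (L + 1)
  have k2 := kap_nonneg (K - 1) L
  set i := I (K + L)
  set j1 := I (K + L + 1)
  set j2 := I (K + L + 2)
  set c0 := kap K L
  set c1 := kap K (L + 1)
  set c2 := kap (K - 1) L
  set A0 := H (K - 1 - 1) L (dl (dl φ))
  set A1 := H (K - 1) L (dl φ)
  set A2 := H K L φ - t
  set B0 := H (K - 1 - 1) L F0
  set B1 := H (K - 1) L F1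
  set B2 := H K L F2
  have hB0 : 0 ≤ B0 := (abs_nonneg _).trans g0
  have hB1 : 0 ≤ B1 := (abs_nonneg _).trans g1
  have hB2 : 0 ≤ B2 := (abs_nonneg _).trans g2
  have t0 : |j2 * (c1 * c2 * A0)| ≤ i * (c1 * c2 * B0) := by
    rw [abs_mul, abs_of_pos i2', abs_mul, abs_of_nonneg (mul_nonneg k1 k2)]
    exact mul_le_mul i2 (mul_le_mul_of_nonneg_left g0 (mul_nonneg k1 k2)) (by positivity) i0.le
  have t1 : |j2 * (2 * c0 / (n + 5/2) * A1)| ≤ i * (2 / (n + 5/2) * (c0 * B1)) := by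
    rw [abs_mul, abs_of_pos i2', abs_mul, abs_of_nonneg (by positivity : 0 ≤ 2 * c0 / (n + 5/2))]
    refine mul_le_mul i2 ?_ (by positivity) i0.le
    have e : 2 / (n + 5/2) * (c0 * B1) = 2 * c0 / (n + 5/2) * B1 := by ring
    rw [e]
    exact mul_le_mul_of_nonneg_left g1 (by positivity)
  have t2 : |3 * (j1 / (n + 4)) * c0 * A1| ≤ i * (3 / (n + 5/2) * (c0 * B1)) := by
    have e : 3 * (j1 / (n + 4)) * c0 * A1 = j1 * (3 / (n + 4) * (c0 * A1)) := by ring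
    rw [e, abs_mul, abs_of_pos i1', abs_mul, abs_of_nonneg (by positivity : 0 ≤ 3 / (n + 4)),
      abs_mul, abs_of_nonneg k0]
    refine mul_le_mul i1 ?_ (by positivity) i0.le
    refine mul_le_mul ?_ (mul_le_mul_of_nonneg_left g1 k0) (by positivity) (by positivity)
    exact div_le_div_of_nonneg_left (by norm_num) (by positivity) (by linarith)
  have t3 : |15 / 4 * (i / ((n + 3) * (n + 4))) * A2| ≤ i * (15 / 4 / ((n + 3) * (n + 4)) * B2) := by
    have e : 15 / 4 * (i / ((n + 3) * (n + 4))) * A2 = i * (15 / 4 / ((n + 3) * (n + 4)) * A2) := by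
      ring
    rw [e, abs_mul, abs_of_pos i0, abs_mul,
      abs_of_nonneg (by positivity : 0 ≤ 15 / 4 / ((n + 3) * (n + 4)))]
    exact mul_le_mul_of_nonneg_left (mul_le_mul_of_nonneg_left g2 (by positivity)) i0.le
  have e1 : j2 * (c1 * c2 * A0 - 2 * c0 / (n + 5/2) * A1) - 3 * (j1 / (n + 4)) * c0 * A1 +
      15 / 4 * (i / ((n + 3) * (n + 4))) * A2 = j2 * (c1 * c2 * A0) -
      j2 * (2 * c0 / (n + 5/2) * A1) - 3 * (j1 / (n + 4)) * c0 * A1 +
      15 / 4 * (i / ((n + 3) * (n + 4))) * A2 := by ring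
  rw [e1]
  have e2 : i * (c1 * c2 * B0 + 5 / (n + 5/2) * (c0 * B1) + 15 / 4 / ((n + 3) * (n + 4)) * B2) =
      i * (c1 * c2 * B0) + i * (2 / (n + 5/2) * (c0 * B1)) + i * (3 / (n + 5/2) * (c0 * B1)) +
      i * (15 / 4 / ((n + 3) * (n + 4)) * B2) := by ring
  rw [e2]
  rw [abs_le] at t0 t1 t2 t3 ⊢
  constructor <;> linarith [t0.1, t0.2, t1.1, t1.2, t2.1, t2.2, t3.1, t3.2]

end Pool.Agent.Q2.MK
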