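import Pool.Agent.Q2.MK.Mom
import Pool.Agent.Q2.MK.Rh

/-!
# Migdal-Kadanoff project, jobs NTN, NTF, NTB: the context
-/

namespace Pool.Agent.Q2.MK

open Pool.Agent.Q291.MK Finset

/-- Everything which is known about a regular law and a test function. -/
structure Ctx (C D C3 C8 C12 e I0 : ℝ) (a φ : ℕ → ℝ) : Prop where
  hC : 0 < C
  hH : ∀ K L : ℕ, H K L (fun j => ((j:ℝ) - hm K L) ^ 12) ≤ C * (min (K:ℝ) L + 1) ^ 6
  hD : 0 < D
  h12 : 1 ≤ C12
  e0 : 0 < e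
  e1 : e ≤ 1
  cl : Cl C3 C8 C12 a
  big : 10 ^ 6 ≤ mean a
  near : |mean (T a) - mean a / 2| ≤ 1
  rho : Rho D (mean a) I0
  Z : 999 / 1000 ≤ E2 a (fun K L => I (K + L)) / I0
  pb : PB φ
  g0 : ∀ J, |dl (dl φ) J| ≤ wt e (mean (T a)) J
  g1 : ∀ J, |dl φ J| ≤ 2 * (|(J:ℝ) - mean (T a)| + √(mean a)) * wt e (mean (T a)) J
  g2 : ∀ J, |φ J - E (T a) φ| ≤
    6 * (|(J:ℝ) - mean (T a)| + √(mean a)) ^ 2 * wt e (mean (T a)) J

lemma tst_sub {e m : ℝ} {φ : ℕ → ℝ} (h : Tst e m φ) (t : ℝ) :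
    Tst e m (fun J => φ J - t) := by
  refine ⟨h.pb.sub (PB.const t), fun J => ?_⟩
  have e1 : dl (dl (fun J => φ J - t)) J = dl (dl φ) J := by unfold dl; ring
  rw [e1]; exact h.bd J

/-- The context, from the facts. -/
lemma ctx_ex (hH : P_HTW) (hG : P_GRO) : ∃ C D : ℝ, 0 < C ∧ 0 < D ∧ ∀ C3 C8 C12 : ℝ,
    1 ≤ C3 → 1 ≤ C8 → 1 ≤ C12 → ∃ e0 M : ℝ, 0 < e0 ∧ ∀ e : ℝ, 0 < e → e ≤ e0 →
    ∀ a : ℕ → ℝ, Rg C3 C8 C12 M a →
    ∀ φ : ℕ → ℝ, Tst e (mean (T a)) φ → E (T a) (dl φ) = 0 →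
    ∃ I0 : ℝ, Ctx C D C3 C8 C12 e I0 a φ := by
  obtain ⟨C, hC, hH⟩ := hH
  obtain ⟨D, hD, hR⟩ := rho_ex
  refine ⟨C, D, hC, hD, fun C3 C8 C12 h3 h8 h12 => ?_⟩
  obtain ⟨e0, he0, hG⟩ := hG C3 C8 C12 h12
  refine ⟨min e0 1, max (10 ^ 6) (1536 * D * (C8 + 1) * 1000), lt_min he0 one_pos,
    fun e he hee a ha φ hφ hE => ?_⟩
  have hb1 : 10 ^ 6 ≤ mean a := (le_max_left _ _).trans ha.big
  have hb2 : 1536 * D * (C8 + 1) * 1000 ≤ mean a := (le_max_right _ _).trans ha.big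
  obtain ⟨I0, hI⟩ := hR (mean a) (by linarith)
  have hμ0 : 0 < mean a := by linarith
  have hZ := Z_low ha.cl.toCls (by linarith) hD hI (by linarith)
  have hZ2 : 1536 * D * (C8 + 1) / mean a ≤ 1 / 1000 := by
    rw [div_le_div_iff₀ hμ0 (by norm_num)]; linarith
  have hn := ha.near
  have hn' := hn
  rw [abs_le] at hn'
  have hAT := ha.clT.toCls.toAM
  have hED : E (T a) (fun J => φ J - E (T a) φ) = 0 := by
    rw [hAT.E_sub hφ.pb (PB.const _), hAT.toLaw.E_const, sub_self]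
  have hdl : dl (fun J => φ J - E (T a) φ) = dl φ := by
    funext J; unfold dl; ring
  have hg := hG e he.le (hee.trans (min_le_left _ _)) (T a) ha.clT (by linarith [hn'.1])
    (fun J => φ J - E (T a) φ) (tst_sub hφ _) (by rw [hdl]; exact hE) hED
  have hs : √(mean (T a)) ≤ √(mean a) := Real.sqrt_le_sqrt (by linarith [hn'.2])
  have hm5 := (m'_five (by linarith) hn).1
  refine ⟨I0, hC, hH, hD, h12, he, hee.trans (min_le_right _ _), ha.cl, hb1, hn, hI,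
    by linarith, hφ.pb, hφ.bd, fun J => ?_, fun J => ?_⟩
  · have h1 := (hg J).1
    rw [hdl] at h1
    refine h1.trans ?_
    have hw := wt_nonneg he.le hm5 J
    have : 0 ≤ wt e (mean (T a)) J := by linarith
    gcongr
  · have h1 := (hg J).2
    refine h1.trans ?_
    have hw := wt_nonneg he.le hm5 J
    have : 0 ≤ wt e (mean (T a)) J := by linarith
    gcongr

/-- The three majorants of the test function. -/
noncomputable def F0 (e m' : ℝ) : ℕ → ℝ := wt e m'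
noncomputable def F1 (e m' r : ℝ) (J : ℕ) : ℝ := 2 * (|(J:ℝ) - m'| + r) * wt e m' J
noncomputable def F2 (e m' r : ℝ) (J : ℕ) : ℝ := 6 * (|(J:ℝ) - m'| + r) ^ 2 * wt e m' J

/-- The majorant of the second difference. -/
noncomputable def Q (e m' r : ℝ) (K L : ℕ) : ℝ :=
  kap K (L + 1) * kap (K - 1) L * H (K - 1 - 1) L (F0 e m') +
    5 / ((K:ℝ) + L + 5/2) * (kap K L * H (K - 1) L (F1 e m' r)) +
    15 / 4 / (((K:ℝ) + L + 3) * (K + L + 4)) * H K L (F2 e m' r)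

section
variable {C D C3 C8 C12 e I0 : ℝ} {a φ : ℕ → ℝ}

lemma Ctx.basic (h : Ctx C D C3 C8 C12 e I0 a φ) :
    1000 ≤ √(mean a) ∧ √(mean a) ^ 2 = mean a ∧ √(mean a) ≤ mean a / 1000 ∧
    0 < mean (T a) ^ 5 ∧ (∀ J, 1 ≤ wt e (mean (T a)) J) := by
  have h1 := h.big
  have h2 : √(mean a) ^ 2 = mean a := Real.sq_sqrt (by linarith)
  have h3 : 1000 ≤ √(mean a) := by
    apply Real.le_sqrt_of_sq_le; linarith
  refine ⟨h3, h2, ?_, (m'_five (by linarith) h.near).1,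
    wt_nonneg h.e0.le (m'_five (by linarith) h.near).1⟩
  nlinarith

lemma Ctx.dd (hdif : P_DIF) (h : Ctx C D C3 C8 C12 e I0 a φ) (L : ℕ) {P : ℕ → ℝ} (hP : PB P)
    (hle : ∀ K, I (K + L) / I0 * Q e (mean (T a)) √(mean a) K L ≤ P K) :
    |dl (dl (TT a φ)) L| ≤ 2000 / 999 * E a P := by
  have hA := h.cl.toCls.toAM
  have hI0 := h.rho.pos
  have hZ : 0 < E2 a (fun K L => I (K + L)) := hA.Z_pos
  rw [ddTT hA h.pb L]
  set g : ℕ → ℝ := fun K => dl (dl (fun L => I (K + L) * (H K L φ - E (T a) φ))) L with hg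
  have p := PB2_f h.pb (E (T a) φ)
  have pg : PB g := ((PB2.slice p (L + 1 + 1)).sub (PB2.slice p (L + 1))).sub
    ((PB2.slice p (L + 1)).sub (PB2.slice p L))
  have h1 : ∀ K, |g K| ≤ I0 * P K := by
    intro K
    have h2 := dd_bound hdif K L (t := E (T a) φ) h.g0 h.g1 h.g2
    refine h2.trans ?_
    have h3 := hle K
    have h4 : I (K + L) * Q e (mean (T a)) √(mean a) K L =
        I0 * (I (K + L) / I0 * Q e (mean (T a)) √(mean a) K L) := by
      field_simp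
    have h5 : I (K + L) * Q e (mean (T a)) √(mean a) K L ≤ I0 * P K := by
      rw [h4]; exact mul_le_mul_of_nonneg_left h3 hI0.le
    exact h5
  have h2 : |E a g| ≤ I0 * E a P := by
    refine (hA.abs_E_le pg).trans ?_
    rw [← E_const_mul]
    exact hA.E_mono pg.abs ((PB.const I0).mul hP) h1
  rw [abs_div, abs_of_pos hZ, abs_mul, abs_of_pos (by norm_num : (0:ℝ) < 2), div_le_iff₀ hZ]
  have h3 : 999 / 1000 * I0 ≤ E2 a (fun K L => I (K + L)) := by
    have := h.Z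
    rwa [le_div_iff₀ hI0] at this
  have h0 : 0 ≤ E a P := by
    have : 0 ≤ I0 * E a P := (abs_nonneg _).trans h2
    exact nonneg_of_mul_nonneg_right this hI0
  calc 2 * |E a g| ≤ 2 * (I0 * E a P) := by linarith
    _ = 2000 / 999 * E a P * (999 / 1000 * I0) := by ring
    _ ≤ _ := mul_le_mul_of_nonneg_left h3 (by positivity)

/-! Moments of the law. -/

lemma Ctx.m12 (h : Ctx C D C3 C8 C12 e I0 a φ) :
    E a (fun K => (|(K:ℝ) - mean a| / √(mean a)) ^ 12) ≤ C12 := by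
  obtain ⟨h1, h2, -⟩ := h.basic
  have h3 := h.cl.m12_le
  have hμ0 : 0 < mean a := by linarith [h.big]
  set r := √(mean a) with hr
  have hr12 : r ^ 12 = mean a ^ 6 := by
    calc r ^ 12 = (r ^ 2) ^ 6 := by ring
      _ = _ := by rw [h2]
  have e1 : (fun K : ℕ => (|(K:ℝ) - mean a| / r) ^ 12) =
      fun K : ℕ => 1 / mean a ^ 6 * ((K:ℝ) - mean a) ^ 12 := by
    funext K
    rw [div_pow, hr12, Even.pow_abs (by decide)]; ring
  rw [e1, E_const_mul, one_div_mul_eq_div, div_le_iff₀ (by positivity)]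
  exact h3

lemma PBx (μ : ℝ) : PB (fun K : ℕ => |(K:ℝ) - μ|) := (PB.id.sub (PB.const μ)).abs

lemma PBu (μ r : ℝ) : PB (fun K : ℕ => |(K:ℝ) - μ| / r) := by
  simpa [div_eq_mul_inv] using (PBx μ).mul (PB.const r⁻¹)

lemma Ctx.tau (h : Ctx C D C3 C8 C12 e I0 a φ) :
    E a (fun K => ((√(mean a) + |(K:ℝ) - mean a|) / √(mean a)) ^ 10) ≤ 2 ^ 11 * (1 + C12) := by
  obtain ⟨h1, h2, -⟩ := h.basic
  have hA := h.cl.toCls.toAM
  have h3 := h.m12
  set r := √(mean a) with hr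
  have hr0 : 0 < r := by linarith
  have p1 : PB (fun K : ℕ => ((r + |(K:ℝ) - mean a|) / r) ^ 10) := by
    refine PB.pow ?_ 10
    simpa [div_eq_mul_inv] using ((PB.const r).add (PBx (mean a))).mul (PB.const r⁻¹)
  have p2 := (PBu (mean a) r).pow 12
  have h4 := hA.E_mono p1 ((PB.const (2 ^ 11)).mul ((PB.const 1).add p2)) (fun K => by
    have hx := abs_nonneg ((K:ℝ) - mean a)
    have e1 : (r + |(K:ℝ) - mean a|) / r = 1 + |(K:ℝ) - mean a| / r := by field_simp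
    rw [e1]
    set u := |(K:ℝ) - mean a| / r
    have hu : 0 ≤ u := by positivity
    have h5 := two_add 1 u
    have h6 : (1 + u) ^ 10 ≤ (1 + u) ^ 12 := pow_le_pow_right₀ (by linarith) (by norm_num)
    rw [one_pow] at h5
    linarith)
  rw [E_const_mul, hA.E_add (PB.const 1) p2, hA.toLaw.E_const] at h4
  refine h4.trans ?_
  linarith

lemma PBs (μ r y : ℝ) : PB (fun K : ℕ => (r + |(K:ℝ) - μ| + y) / r) := by
  simpa [div_eq_mul_inv] using (((PB.const r).add (PBx μ)).add (PB.const y)).mul (PB.const r⁻¹)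

lemma Ctx.sig (h : Ctx C D C3 C8 C12 e I0 a φ) {y B : ℝ} (hy : 0 ≤ y)
    (hB : y ≤ B * √(mean a)) :
    E a (fun K => ((√(mean a) + |(K:ℝ) - mean a| + y) / √(mean a)) ^ 12) ≤
      2 ^ 22 * (1 + C12 + B ^ 12) := by
  obtain ⟨h1, h2, -⟩ := h.basic
  have hA := h.cl.toCls.toAM
  have h3 := h.m12
  set r := √(mean a) with hr
  have hr0 : 0 < r := by linarith
  have hyB : y / r ≤ B := by rwa [div_le_iff₀ hr0]
  have p1 := (PBs (mean a) r y).pow 12
  have p2 := (PBu (mean a) r).pow 12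
  have h4 := hA.E_mono p1 ((PB.const (2 ^ 22)).mul (((PB.const 1).add p2).add (PB.const (B ^ 12))))
    (fun K => by
    have hx := abs_nonneg ((K:ℝ) - mean a)
    have e1 : (r + |(K:ℝ) - mean a| + y) / r = 1 + |(K:ℝ) - mean a| / r + y / r := by field_simp
    rw [e1]
    set u := |(K:ℝ) - mean a| / r
    have hu : 0 ≤ u := by positivity
    have h5 := three_add 1 u (y / r)
    have h6 : (y / r) ^ 12 ≤ B ^ 12 := pow_le_pow_left₀ (by positivity) hyB 12
    rw [one_pow] at h5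
    linarith)
  rw [E_const_mul, hA.E_add ((PB.const 1).add p2) (PB.const _), hA.E_add (PB.const 1) p2,
    hA.toLaw.E_const, hA.toLaw.E_const] at h4
  refine h4.trans ?_
  linarith

end

end Pool.Agent.Q2.MK
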