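import Pool.Agent.Q2.MK.Crude

/-!
# Migdal-Kadanoff project, jobs NTN, NTF
-/

namespace Pool.Agent.Q2.MK

open Pool.Agent.Q291.MK Finset

variable {C D C3 C8 C12 e I0 : ℝ} {a φ : ℕ → ℝ}

/-- The normalised distance. -/
noncomputable def sg (μ r : ℝ) (K L : ℕ) : ℝ := (r + |(K:ℝ) - μ| + |(L:ℝ) - μ|) / r

lemma Ctx.HF0 (h : Ctx C D C3 C8 C12 e I0 a φ) {K K' : ℕ} (hK1 : K' ≤ K) (hK2 : K ≤ K' + 2)
    (L : ℕ) : H K' L (F0 e (mean (T a))) ≤
      35 * (2 ^ 24 * (C + 1)) * sg (mean a) √(mean a) K L ^ 10 := by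
  obtain ⟨h1, h2, -⟩ := h.basic
  have hb := h.big
  have e1 := H_mono K' L (f := F0 e (mean (T a)))
    (g := fun j => 35 * ((|(j:ℝ) - mean (T a)| + √(mean a)) / √(mean a)) ^ 10)
    (fun j _ _ => wt_le h.e1 (by linarith) (by linarith) h2 h.near j)
  rw [H_const_mul] at e1
  have e2 := H_pow h.hC h.hH (by linarith : 3 ≤ √(mean a)) h2 h.near hK1 hK2 L
    (p := 10) (by norm_num)
  have e3 := mul_le_mul_of_nonneg_left e2 (by norm_num : (0:ℝ) ≤ 35)
  refine e1.trans (e3.trans (le_of_eq ?_))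
  unfold sg; ring

lemma Ctx.HF1 (h : Ctx C D C3 C8 C12 e I0 a φ) {K K' : ℕ} (hK1 : K' ≤ K) (hK2 : K ≤ K' + 2)
    (L : ℕ) : H K' L (F1 e (mean (T a)) √(mean a)) ≤
      70 * √(mean a) * (2 ^ 24 * (C + 1)) * sg (mean a) √(mean a) K L ^ 11 := by
  obtain ⟨h1, h2, -, -, h5⟩ := h.basic
  have hb := h.big
  have hr0 : 0 < √(mean a) := by linarith
  have e1 := H_mono K' L (f := F1 e (mean (T a)) √(mean a))
    (g := fun j => 70 * √(mean a) * ((|(j:ℝ) - mean (T a)| + √(mean a)) / √(mean a)) ^ 11)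
    (fun j _ _ => by
      have e4 := wt_le h.e1 (by linarith) (by linarith) h2 h.near j
      unfold F1
      set v := (|(j:ℝ) - mean (T a)| + √(mean a)) / √(mean a) with hv
      have e5 : |(j:ℝ) - mean (T a)| + √(mean a) = √(mean a) * v := by rw [hv]; field_simp
      have hv0 : 0 ≤ v := by positivity
      rw [e5]
      have e6 := mul_le_mul_of_nonneg_left e4 (by positivity : 0 ≤ 2 * (√(mean a) * v))
      refine e6.trans (le_of_eq ?_)
      ring)
  rw [H_const_mul] at e1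
  have e2 := H_pow h.hC h.hH (by linarith : 3 ≤ √(mean a)) h2 h.near hK1 hK2 L
    (p := 11) (by norm_num)
  have e3 := mul_le_mul_of_nonneg_left e2 (by positivity : (0:ℝ) ≤ 70 * √(mean a))
  refine e1.trans (e3.trans (le_of_eq ?_))
  unfold sg; ring

lemma Ctx.HF2 (h : Ctx C D C3 C8 C12 e I0 a φ) {K K' : ℕ} (hK1 : K' ≤ K) (hK2 : K ≤ K' + 2)
    (L : ℕ) : H K' L (F2 e (mean (T a)) √(mean a)) ≤
      210 * mean a * (2 ^ 24 * (C + 1)) * sg (mean a) √(mean a) K L ^ 12 := by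
  obtain ⟨h1, h2, -, -, h5⟩ := h.basic
  have hb := h.big
  have hr0 : 0 < √(mean a) := by linarith
  have e1 := H_mono K' L (f := F2 e (mean (T a)) √(mean a))
    (g := fun j => 210 * mean a * ((|(j:ℝ) - mean (T a)| + √(mean a)) / √(mean a)) ^ 12)
    (fun j _ _ => by
      have e4 := wt_le h.e1 (by linarith) (by linarith) h2 h.near j
      unfold F2
      set v := (|(j:ℝ) - mean (T a)| + √(mean a)) / √(mean a) with hv
      have e5 : |(j:ℝ) - mean (T a)| + √(mean a) = √(mean a) * v := by rw [hv]; field_simp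
      have hv0 : 0 ≤ v := by positivity
      rw [e5]
      have e6 := mul_le_mul_of_nonneg_left e4 (by positivity : 0 ≤ 6 * (√(mean a) * v) ^ 2)
      refine e6.trans (le_of_eq ?_)
      calc 6 * (√(mean a) * v) ^ 2 * (35 * v ^ 10) = 210 * √(mean a) ^ 2 * v ^ 12 := by ring
        _ = _ := by rw [h2])
  rw [H_const_mul] at e1
  have e2 := H_pow h.hC h.hH (by linarith : 3 ≤ √(mean a)) h2 h.near hK1 hK2 L
    (p := 12) (by norm_num)
  have e3 := mul_le_mul_of_nonneg_left e2 (by linarith : (0:ℝ) ≤ 210 * mean a)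
  refine e1.trans (e3.trans (le_of_eq ?_))
  unfold sg; ring

lemma Ctx.sg_one (h : Ctx C D C3 C8 C12 e I0 a φ) (K L : ℕ) :
    1 ≤ sg (mean a) √(mean a) K L := by
  obtain ⟨h1, h2, -⟩ := h.basic
  unfold sg
  rw [le_div_iff₀ (by linarith)]
  have := abs_nonneg ((K:ℝ) - mean a)
  have := abs_nonneg ((L:ℝ) - mean a)
  linarith

/-- Small distances against the normalised distance. -/
lemma Ctx.sg_div (h : Ctx C D C3 C8 C12 e I0 a φ) (K L : ℕ) :
    (|(K:ℝ) - mean a| + |(L:ℝ) - mean a| + 2) / mean a ≤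
      sg (mean a) √(mean a) K L / √(mean a) := by
  obtain ⟨h1, h2, -⟩ := h.basic
  have hr0 : 0 < √(mean a) := by linarith
  unfold sg
  rw [div_div, ← sq, h2]
  have hb := h.big
  exact div_le_div_of_nonneg_right (by linarith) (by linarith)

/-- The fine pointwise bound. -/
lemma Ctx.Q_fine (h : Ctx C D C3 C8 C12 e I0 a φ) {L : ℕ} (hL : 3 / 4 * mean a ≤ (L:ℝ)) (K : ℕ) :
    I (K + L) / I0 * Q e (mean (T a)) √(mean a) K L ≤
      1 / 16 * (1 + e / 25 * (((L:ℝ) - mean a) ^ 10 / mean a ^ 5) +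
      e * cW C * ((√(mean a) + |(K:ℝ) - mean a|) / √(mean a)) ^ 10) +
      2 ^ 38 * (D + 1) * (C + 1) / √(mean a) * sg (mean a) √(mean a) K L ^ 12 := by
  obtain ⟨h1, h2, h3, h4, h5⟩ := h.basic
  have hW0 := h.W (K := K) (K' := K - 1 - 1) (by omega) (by omega) L
  have f0 := h.HF0 (K := K) (K' := K - 1 - 1) (by omega) (by omega) L
  have f1 := h.HF1 (K := K) (K' := K - 1) (by omega) (by omega) L
  have f2 := h.HF2 (K := K) (K' := K) (by omega) (by omega) L
  have s1 := h.sg_one K L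
  have s2 := h.sg_div K L
  have g0 : 0 ≤ H (K - 1 - 1) L (F0 e (mean (T a))) := H_nonneg _ _ fun j _ _ => h.F0_nonneg j
  have g1 : 0 ≤ H (K - 1) L (F1 e (mean (T a)) √(mean a)) :=
    H_nonneg _ _ fun j _ _ => h.F1_nonneg j
  have g2 : 0 ≤ H K L (F2 e (mean (T a)) √(mean a)) := H_nonneg _ _ fun j _ _ => h.F2_nonneg j
  have hb := h.big
  have hμ0 : 0 < mean a := by linarith
  have hk : (0:ℝ) ≤ K := Nat.cast_nonneg K
  have hl : (0:ℝ) ≤ L := Nat.cast_nonneg L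
  have hn : 3 / 4 * mean a ≤ ((K + L : ℕ) : ℝ) := by push_cast; linarith
  have r1 := h.rho.half (K + L) hn
  have r2 := h.rho.near (K + L) hn
  have r0 : 0 ≤ I (K + L) / I0 := (div_pos (I_pos _) h.rho.pos).le
  have k1 := kap_near (μ := mean a) K (L + 1) (by push_cast; linarith) hμ0
  have k2 := kap_near (μ := mean a) (K - 1) L
    (by have : (0:ℝ) ≤ ((K - 1 : ℕ) : ℝ) := Nat.cast_nonneg _
        linarith) hμ0
  have k1' := kap_nonneg K (L + 1)
  have k2' := kap_nonneg (K - 1) L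
  have k3' := kap_nonneg K L
  have k1'' := kap_le_one K (L + 1)
  have k2'' := kap_le_one (K - 1) L
  have k3'' := kap_le_one K L
  have hC := h.hC
  have hD := h.hD
  set W := 1 + e / 25 * (((L:ℝ) - mean a) ^ 10 / mean a ^ 5) +
      e * cW C * ((√(mean a) + |(K:ℝ) - mean a|) / √(mean a)) ^ 10 with hW
  set μ := mean a
  set m' := mean (T a)
  set r := √μ
  set s := sg μ r K L
  have hr0 : 0 < r := by linarith
  set δ := s / r with hδ
  have hδ0 : 0 ≤ δ := by positivity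
  have d1 : |kap K (L + 1) - 1 / 4| ≤ δ := by
    refine k1.trans (le_trans ?_ s2)
    gcongr ?_ / _
    have : |((L + 1 : ℕ) : ℝ) - μ| ≤ |(L:ℝ) - μ| + 1 := by
      push_cast
      have e1 : (L:ℝ) + 1 - μ = (L - μ) + 1 := by ring
      rw [e1]
      refine (abs_add_le _ _).trans ?_
      simp
    linarith
  have d2 : |kap (K - 1) L - 1 / 4| ≤ δ := by
    refine k2.trans (le_trans ?_ s2)
    gcongr ?_ / _
    have : |((K - 1 : ℕ) : ℝ) - μ| ≤ |(K:ℝ) - μ| + 1 := by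
      have e1 : ((K - 1 : ℕ) : ℝ) ≤ K := by exact_mod_cast Nat.sub_le _ _
      have e2 : (K : ℝ) ≤ ((K - 1 : ℕ) : ℝ) + 1 := by
        have : K ≤ K - 1 + 1 := by omega
        exact_mod_cast this
      have e3 := le_abs_self ((K:ℝ) - μ)
      have e4 := neg_le_abs ((K:ℝ) - μ)
      rw [abs_le]; constructor <;> linarith
    linarith
  have d0 : I (K + L) / I0 ≤ 1 + D * δ := by
    refine r2.trans ?_
    have : (|((K + L : ℕ):ℝ) - 2 * μ| + 1) / μ ≤ δ := by
      refine le_trans ?_ s2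
      gcongr ?_ / _
      push_cast
      have e1 : (K:ℝ) + L - 2 * μ = (K - μ) + (L - μ) := by ring
      rw [e1]
      have := abs_add_le ((K:ℝ) - μ) (L - μ)
      linarith
    have := mul_le_mul_of_nonneg_left this hD.le
    linarith
  set ρ := I (K + L) / I0
  set c1 := kap K (L + 1)
  set c2 := kap (K - 1) L
  set c0 := kap K L
  rw [abs_le] at d1 d2
  have hprod : ρ * (c1 * c2) ≤ 1 / 16 + (D + 2) * δ := by
    have e1 : (ρ - 1) * (c1 * c2) ≤ D * δ := by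
      have e2 : c1 * c2 ≤ 1 := mul_le_one₀ k1'' k2' k2''
      have e3 : (ρ - 1) * (c1 * c2) ≤ (D * δ) * (c1 * c2) :=
        mul_le_mul_of_nonneg_right (by linarith) (mul_nonneg k1' k2')
      have e4 : (D * δ) * (c1 * c2) ≤ (D * δ) * 1 := mul_le_mul_of_nonneg_left e2 (by positivity)
      linarith
    have e2 : (c1 - 1 / 4) * c2 ≤ δ := by
      have e3 : (c1 - 1 / 4) * c2 ≤ δ * c2 := mul_le_mul_of_nonneg_right d1.2 k2'
      have e4 : δ * c2 ≤ δ * 1 := mul_le_mul_of_nonneg_left k2'' hδ0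
      linarith
    have e5 : ρ * (c1 * c2) = (ρ - 1) * (c1 * c2) + (c1 - 1 / 4) * c2 + 1 / 4 * (c2 - 1 / 4) +
      1 / 16 := by ring
    rw [e5]
    linarith [d2.2]
  set P := 2 ^ 24 * (C + 1) with hP
  have hP0 : 0 < P := by positivity
  have hs0 : 0 ≤ s := by linarith
  have hs11 : s ^ 11 ≤ s ^ 12 := pow_le_pow_right₀ s1 (by norm_num)
  -- first term
  have t0 : ρ * (c1 * c2 * H (K - 1 - 1) L (F0 e m')) ≤
      1 / 16 * W + (D + 2) * 35 * P / r * s ^ 12 := by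
    have e1 : ρ * (c1 * c2 * H (K - 1 - 1) L (F0 e m')) =
      (ρ * (c1 * c2)) * H (K - 1 - 1) L (F0 e m') := by ring
    rw [e1]
    have e2 := mul_le_mul_of_nonneg_right hprod g0
    refine e2.trans ?_
    have e3 : (1 / 16 + (D + 2) * δ) * H (K - 1 - 1) L (F0 e m') =
      1 / 16 * H (K - 1 - 1) L (F0 e m') + (D + 2) * δ * H (K - 1 - 1) L (F0 e m') := by ring
    rw [e3]
    have e4 : (D + 2) * δ * H (K - 1 - 1) L (F0 e m') ≤ (D + 2) * δ * (35 * P * s ^ 10) :=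
      mul_le_mul_of_nonneg_left f0 (by positivity)
    have e5 : (D + 2) * δ * (35 * P * s ^ 10) = (D + 2) * 35 * P / r * s ^ 11 := by
      rw [hδ]; ring
    have e6 : (D + 2) * 35 * P / r * s ^ 11 ≤ (D + 2) * 35 * P / r * s ^ 12 :=
      mul_le_mul_of_nonneg_left hs11 (by positivity)
    have e7 : 1 / 16 * H (K - 1 - 1) L (F0 e m') ≤ 1 / 16 * W :=
      mul_le_mul_of_nonneg_left hW0 (by norm_num)
    linarith
  have hnμ : 3 / 4 * μ ≤ (K:ℝ) + L := by linarith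
  -- second term
  have t1 : ρ * (5 / ((K:ℝ) + L + 5/2) * (c0 * H (K - 1) L (F1 e m' r))) ≤
      2100 * P / r * s ^ 12 := by
    have e1 : 5 / ((K:ℝ) + L + 5/2) ≤ 20 / 3 / μ := by
      rw [div_le_div_iff₀ (by positivity) hμ0]; linarith
    have e2 : c0 * H (K - 1) L (F1 e m' r) ≤ 1 * (70 * r * P * s ^ 11) :=
      mul_le_mul k3'' f1 g1 (by norm_num)
    have e3 : 5 / ((K:ℝ) + L + 5/2) * (c0 * H (K - 1) L (F1 e m' r)) ≤
      20 / 3 / μ * (1 * (70 * r * P * s ^ 11)) :=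
      mul_le_mul e1 e2 (mul_nonneg k3' g1) (by positivity)
    have e4 := mul_le_mul r1 e3 (by positivity) (by norm_num)
    refine e4.trans ?_
    have e5 : 9 / 2 * (20 / 3 / μ * (1 * (70 * r * P * s ^ 11))) = 2100 * P / r * s ^ 11 := by
      rw [← h2]; field_simp; ring
    rw [e5]
    exact mul_le_mul_of_nonneg_left hs11 (by positivity)
  have t2 : ρ * (15 / 4 / (((K:ℝ) + L + 3) * (K + L + 4)) * H K L (F2 e m' r)) ≤
      6300 * P / r * s ^ 12 := by
    have e1 : 15 / 4 / (((K:ℝ) + L + 3) * (K + L + 4)) ≤ 20 / 3 / μ ^ 2 := by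
      rw [div_le_div_iff₀ (by positivity) (by positivity)]
      have e6 : (3 / 4 * μ) ^ 2 ≤ ((K:ℝ) + L) ^ 2 := pow_le_pow_left₀ (by positivity) hnμ 2
      have e7 : (((K:ℝ) + L + 3) * (K + L + 4)) = ((K:ℝ) + L) ^ 2 + 7 * ((K:ℝ) + L) + 12 := by ring
      rw [e7]
      have e8 : (3 / 4 * μ) ^ 2 = 9 / 16 * μ ^ 2 := by ring
      rw [e8] at e6
      linarith
    have e3 : 15 / 4 / (((K:ℝ) + L + 3) * (K + L + 4)) * H K L (F2 e m' r) ≤
      20 / 3 / μ ^ 2 * (210 * μ * P * s ^ 12) := mul_le_mul e1 f2 g2 (by positivity)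
    have e4 := mul_le_mul r1 e3 (by positivity) (by norm_num)
    refine e4.trans ?_
    have e5 : 9 / 2 * (20 / 3 / μ ^ 2 * (210 * μ * P * s ^ 12)) = 6300 * P / μ * s ^ 12 := by
      field_simp; ring
    rw [e5]
    refine mul_le_mul_of_nonneg_right ?_ (by positivity)
    exact div_le_div_of_nonneg_left (by positivity) hr0 (by linarith)
  have hQ : ρ * Q e m' r K L = ρ * (c1 * c2 * H (K - 1 - 1) L (F0 e m')) +
      ρ * (5 / ((K:ℝ) + L + 5/2) * (c0 * H (K - 1) L (F1 e m' r))) +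
      ρ * (15 / 4 / (((K:ℝ) + L + 3) * (K + L + 4)) * H K L (F2 e m' r)) := by
    unfold Q; ring
  rw [hQ]
  have fin : (D + 2) * 35 * P / r * s ^ 12 + 2100 * P / r * s ^ 12 + 6300 * P / r * s ^ 12 ≤
      2 ^ 38 * (D + 1) * (C + 1) / r * s ^ 12 := by
    have e1 : (D + 2) * 35 * P / r * s ^ 12 + 2100 * P / r * s ^ 12 + 6300 * P / r * s ^ 12 =
      ((D + 2) * 35 + 8400) * P * (s ^ 12 / r) := by ring
    have e2 : 2 ^ 38 * (D + 1) * (C + 1) / r * s ^ 12 = (2 ^ 14 * (D + 1)) * P * (s ^ 12 / r) := by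
      rw [hP]; ring
    rw [e1, e2]
    have e3 : (D + 2) * 35 + 8400 ≤ 2 ^ 14 * (D + 1) := by linarith
    exact mul_le_mul_of_nonneg_right (mul_le_mul_of_nonneg_right e3 hP0.le) (by positivity)
  linarith

/-- The fine bound. -/
lemma Ctx.fine (hdif : P_DIF) (h : Ctx C D C3 C8 C12 e I0 a φ) {B : ℝ} {L : ℕ}
    (hL : |(L:ℝ) - mean a| ≤ B * √(mean a)) (hB : 4 * B ≤ √(mean a)) :
    |dl (dl (TT a φ)) L| ≤ 2000 / 999 * (1 / 16 * (1 + e / 25 *
      (((L:ℝ) - mean a) ^ 10 / mean a ^ 5) + e * cW C * (2 ^ 11 * (1 + C12))) +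
      2 ^ 38 * (D + 1) * (C + 1) / √(mean a) * (2 ^ 22 * (1 + C12 + B ^ 12))) := by
  obtain ⟨h1, h2, h3, h4, h5⟩ := h.basic
  have hA := h.cl.toCls.toAM
  have hb := h.big
  have hr0 : 0 < √(mean a) := by linarith
  have hL' : 3 / 4 * mean a ≤ (L:ℝ) := by
    rw [abs_le] at hL
    have : 4 * B * √(mean a) ≤ √(mean a) * √(mean a) := mul_le_mul_of_nonneg_right hB hr0.le
    have e1 : √(mean a) * √(mean a) = mean a := by rw [← sq, h2]
    rw [e1] at this
    linarith [hL.1]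
  have hcW : 0 ≤ cW C := by unfold cW; have := h.hC; positivity
  have hC := h.hC
  have hD := h.hD
  have he := h.e0
  have pt : PB (fun K : ℕ => ((√(mean a) + |(K:ℝ) - mean a|) / √(mean a)) ^ 10) := by
    refine PB.pow ?_ 10
    simpa [div_eq_mul_inv] using ((PB.const √(mean a)).add (PBx (mean a))).mul
      (PB.const (√(mean a))⁻¹)
  have ps : PB (fun K : ℕ => sg (mean a) √(mean a) K L ^ 12) :=
    (PBs (mean a) √(mean a) |(L:ℝ) - mean a|).pow 12
  have p1 : PB (fun K : ℕ => 1 + e / 25 * (((L:ℝ) - mean a) ^ 10 / mean a ^ 5) +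
      e * cW C * ((√(mean a) + |(K:ℝ) - mean a|) / √(mean a)) ^ 10) :=
    (PB.const _).add ((PB.const _).mul pt)
  have h6 := h.dd hdif L (((PB.const (1 / 16)).mul p1).add
    ((PB.const (2 ^ 38 * (D + 1) * (C + 1) / √(mean a))).mul ps)) (fun K => h.Q_fine hL' K)
  refine h6.trans ?_
  rw [hA.E_add ((PB.const (1 / 16)).mul p1) ((PB.const _).mul ps), E_const_mul, E_const_mul,
    hA.E_add (PB.const _) ((PB.const _).mul pt), hA.toLaw.E_const, E_const_mul]
  have e1 := h.tau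
  have e2 := h.sig (abs_nonneg _) hL
  have e3 := mul_le_mul_of_nonneg_left e1 (by positivity : 0 ≤ e * cW C)
  have e4 := mul_le_mul_of_nonneg_left e2
    (by positivity : 0 ≤ 2 ^ 38 * (D + 1) * (C + 1) / √(mean a))
  have e5 : E a (fun K => sg (mean a) √(mean a) K L ^ 12) =
    E a (fun K => ((√(mean a) + |(K:ℝ) - mean a| + |(L:ℝ) - mean a|) / √(mean a)) ^ 12) := rfl
  rw [e5]
  linarith

end Pool.Agent.Q2.MK
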