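import Pool.Agent.Q2.MK.Tool

/-!
# Migdal-Kadanoff project, jobs NTN, NTF, NTB: moments
-/

namespace Pool.Agent.Q2.MK

open Pool.Agent.Q291.MK Finset

/-- Tenth moment of the deviation, with the sharp coefficient. -/
lemma H_ten {C : ℝ} (hC : 0 < C) (hH : ∀ K L : ℕ,
    H K L (fun j => ((j:ℝ) - hm K L) ^ 12) ≤ C * (min (K:ℝ) L + 1) ^ 6)
    {μ m' r : ℝ} (hr : 3 ≤ r) (hμ : r ^ 2 = μ) (hm' : |m' - μ / 2| ≤ 1)
    {K K' : ℕ} (hK1 : K' ≤ K) (hK2 : K ≤ K' + 2) (L : ℕ) :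
    H K' L (fun j => ((j:ℝ) - m') ^ 10) ≤
      (101/100) ^ 18 / 1024 * ((L:ℝ) - μ) ^ 10 + 101 ^ 10 * (C + 1) * (r + |(K:ℝ) - μ|) ^ 10 := by
  set s := r + |(K:ℝ) - μ| with hs
  have hx := abs_nonneg ((K:ℝ) - μ)
  have hk : (K':ℝ) ≤ K := by exact_mod_cast hK1
  have hk2 : (K:ℝ) ≤ K' + 2 := by exact_mod_cast hK2
  have hk0 : (0:ℝ) ≤ K' := Nat.cast_nonneg _
  have hx' : |(K':ℝ) - μ| ≤ s := by
    have h1 := le_abs_self ((K:ℝ) - μ)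
    have h2 := neg_le_abs ((K:ℝ) - μ)
    rw [abs_le]; constructor <;> linarith
  have hs3 : 3 ≤ s := by linarith
  -- the mean
  set M := max |(K':ℝ) - μ| |(L:ℝ) - μ| with hM
  have hM0 : 0 ≤ M := (abs_nonneg _).trans (le_max_left _ _)
  have hh : |hm K' L - m'| ≤ M / 2 + 9 / 8 := by
    have h1 := hm_dist K' L μ
    have h2 : |hm K' L - m'| ≤ |hm K' L - μ / 2| + |m' - μ / 2| := by
      have : hm K' L - m' = (hm K' L - μ / 2) - (m' - μ / 2) := by ring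
      rw [this]; exact abs_sub _ _
    linarith
  have hM10 : M ^ 10 ≤ s ^ 10 + ((L:ℝ) - μ) ^ 10 := by
    have e1 : |(K':ℝ) - μ| ^ 10 ≤ s ^ 10 := pow_le_pow_left₀ (abs_nonneg _) hx' 10
    have e2 : 0 ≤ ((L:ℝ) - μ) ^ 10 := Even.pow_nonneg (by decide) _
    have e3 : 0 ≤ s ^ 10 := Even.pow_nonneg (by decide) _
    rcases max_choice |(K':ℝ) - μ| |(L:ℝ) - μ| with h | h
    · rw [hM, h]; linarith
    · rw [hM, h, Even.pow_abs (by decide)]; linarith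
  have hmean : (hm K' L - m') ^ 10 ≤ (101/100) ^ 9 / 1024 * (s ^ 10 + ((L:ℝ) - μ) ^ 10) +
      101 ^ 9 * s ^ 10 := by
    have h4 : (hm K' L - m') ^ 10 ≤ (M/2 + 9/8) ^ 10 := by
      have : (hm K' L - m') ^ 10 = |hm K' L - m'| ^ 10 := (Even.pow_abs (by decide) _).symm
      rw [this]; exact pow_le_pow_left₀ (abs_nonneg _) hh 10
    have h5 := tenth_add (M/2) (9/8)
    have h6 : (M/2) ^ 10 = M ^ 10 / 1024 := by ring
    rw [h6] at h5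
    have h7 : ((9:ℝ)/8) ^ 10 ≤ s ^ 10 := pow_le_pow_left₀ (by norm_num) (by linarith) 10
    have h8 : (101/100:ℝ) ^ 9 * (M ^ 10 / 1024) ≤
        (101/100) ^ 9 / 1024 * (s ^ 10 + ((L:ℝ) - μ) ^ 10) := by
      have := mul_le_mul_of_nonneg_left hM10 (by positivity : (0:ℝ) ≤ (101/100) ^ 9 / 1024)
      linarith
    have h9 : (101:ℝ) ^ 9 * (9/8) ^ 10 ≤ 101 ^ 9 * s ^ 10 :=
      mul_le_mul_of_nonneg_left h7 (by positivity)
    linarith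
  -- the fluctuation
  set t := (K':ℝ) + 1 with ht
  have ht0 : 0 < t := by positivity
  have ht2 : t ≤ 2 * s ^ 2 := by
    have h5 : (K:ℝ) ≤ |(K:ℝ) - μ| + μ := by linarith [le_abs_self ((K:ℝ) - μ)]
    have h7 : s ^ 2 = μ + 2 * (r * |(K:ℝ) - μ|) + |(K:ℝ) - μ| ^ 2 := by
      rw [hs, ← hμ]; ring
    have h8 : 3 * |(K:ℝ) - μ| ≤ r * |(K:ℝ) - μ| := mul_le_mul_of_nonneg_right hr hx
    have h9 : 3 ^ 2 ≤ r ^ 2 := pow_le_pow_left₀ (by norm_num) hr 2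
    have h10 : 0 ≤ |(K:ℝ) - μ| ^ 2 := by positivity
    rw [hμ] at h9
    linarith
  have hfl : H K' L (fun j => ((j:ℝ) - hm K' L) ^ 10) ≤ (C + 1) * (32 * s ^ 10) := by
    have h1 := H_mono K' L (f := fun j => ((j:ℝ) - hm K' L) ^ 10)
      (g := fun j => t ^ 5 + 1 / t * ((j:ℝ) - hm K' L) ^ 12) (fun j _ _ => by
        have := q_ineq (sq_nonneg ((j:ℝ) - hm K' L)) ht0
        calc ((j:ℝ) - hm K' L) ^ 10 = (((j:ℝ) - hm K' L) ^ 2) ^ 5 := by ring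
          _ ≤ _ := this
          _ = _ := by ring)
    rw [H_add, H_const, H_const_mul] at h1
    have h2 : H K' L (fun j => ((j:ℝ) - hm K' L) ^ 12) ≤ C * t ^ 6 :=
      (hH K' L).trans (mul_le_mul_of_nonneg_left (pow_le_pow_left₀ (by positivity)
        (by linarith [min_le_left (K':ℝ) L]) 6) hC.le)
    have h3 : 1 / t * H K' L (fun j => ((j:ℝ) - hm K' L) ^ 12) ≤ 1 / t * (C * t ^ 6) :=
      mul_le_mul_of_nonneg_left h2 (by positivity)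
    have h4 : 1 / t * (C * t ^ 6) = C * t ^ 5 := by field_simp
    have h5 : t ^ 5 ≤ (2 * s ^ 2) ^ 5 := pow_le_pow_left₀ ht0.le ht2 5
    have h6 : (2 * s ^ 2) ^ 5 = 32 * s ^ 10 := by ring
    rw [h6] at h5
    have h7 : (C + 1) * t ^ 5 ≤ (C + 1) * (32 * s ^ 10) :=
      mul_le_mul_of_nonneg_left h5 (by linarith)
    linarith
  have hpt : ∀ j : ℕ, ((j:ℝ) - m') ^ 10 ≤
      (101/100) ^ 9 * (hm K' L - m') ^ 10 + 101 ^ 9 * ((j:ℝ) - hm K' L) ^ 10 := by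
    intro j
    have h := tenth_add (hm K' L - m') ((j:ℝ) - hm K' L)
    have e1 : hm K' L - m' + ((j:ℝ) - hm K' L) = (j:ℝ) - m' := by ring
    rwa [e1] at h
  have h1 := H_mono K' L (fun j _ _ => hpt j)
  rw [H_add, H_const, H_const_mul] at h1
  have h2 := mul_le_mul_of_nonneg_left hmean (by positivity : (0:ℝ) ≤ (101/100) ^ 9)
  have h3 := mul_le_mul_of_nonneg_left hfl (by positivity : (0:ℝ) ≤ 101 ^ 9)
  have h4 : 0 ≤ s ^ 10 := by positivity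
  have h5 : 0 ≤ C * s ^ 10 := by positivity
  refine h1.trans ((add_le_add h2 h3).trans ?_)
  have e1 : (101:ℝ) ^ 10 * (C + 1) * s ^ 10 = 101 ^ 10 * (C * s ^ 10) + 101 ^ 10 * s ^ 10 := by ring
  have e2 : (101:ℝ) ^ 9 * ((C + 1) * (32 * s ^ 10)) =
      32 * 101 ^ 9 * (C * s ^ 10) + 32 * 101 ^ 9 * s ^ 10 := by ring
  have e3 : (101/100:ℝ) ^ 9 * ((101/100) ^ 9 / 1024 * (s ^ 10 + ((L:ℝ) - μ) ^ 10) +
      101 ^ 9 * s ^ 10) = (101/100) ^ 18 / 1024 * ((L:ℝ) - μ) ^ 10 +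
      ((101/100) ^ 18 / 1024 + (101/100) ^ 9 * 101 ^ 9) * s ^ 10 := by ring
  rw [e1, e2, e3]
  have n1 : (101/100:ℝ) ^ 18 / 1024 + (101/100) ^ 9 * 101 ^ 9 ≤ 2 * 101 ^ 9 := by norm_num
  have n2 := mul_le_mul_of_nonneg_right n1 h4
  have n3 : (32:ℝ) * 101 ^ 9 ≤ 101 ^ 10 := by norm_num
  have n4 := mul_le_mul_of_nonneg_right n3 h5
  have n5 : (34:ℝ) * 101 ^ 9 ≤ 101 ^ 10 := by norm_num
  have n6 := mul_le_mul_of_nonneg_right n5 h4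
  linarith

/-- Moments of the normalised deviation. -/
lemma H_pow {C : ℝ} (hC : 0 < C) (hH : ∀ K L : ℕ,
    H K L (fun j => ((j:ℝ) - hm K L) ^ 12) ≤ C * (min (K:ℝ) L + 1) ^ 6)
    {μ m' r : ℝ} (hr : 3 ≤ r) (hμ : r ^ 2 = μ) (hm' : |m' - μ / 2| ≤ 1)
    {K K' : ℕ} (hK1 : K' ≤ K) (hK2 : K ≤ K' + 2) (L : ℕ) {p : ℕ} (hp : p ≤ 12) :
    H K' L (fun j => ((|(j:ℝ) - m'| + r) / r) ^ p) ≤
      2 ^ 24 * (C + 1) * ((r + |(K:ℝ) - μ| + |(L:ℝ) - μ|) / r) ^ p := by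
  set s := r + |(K:ℝ) - μ| + |(L:ℝ) - μ| with hs
  have hs0 : 0 < s := by positivity
  have hr0 : 0 < r := by linarith
  have hpt : ∀ j : ℕ, ((|(j:ℝ) - m'| + r) / r) ^ p ≤
      (s / r) ^ p * (1 + 1 / s ^ 12 * (|(j:ℝ) - m'| + r) ^ 12) := by
    intro j
    have h1 : (|(j:ℝ) - m'| + r) / r = s / r * ((|(j:ℝ) - m'| + r) / s) := by
      field_simp
    rw [h1, mul_pow]
    refine mul_le_mul_of_nonneg_left ?_ (by positivity)
    have h2 := pow_le_twelve (v := (|(j:ℝ) - m'| + r) / s) (by positivity) hp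
    refine h2.trans (le_of_eq ?_)
    rw [div_pow]; ring
  have h1 := H_mono K' L (fun j _ _ => hpt j)
  rw [H_const_mul, H_add, H_const, H_const_mul] at h1
  have h2 := H_twelve hC hH hr hμ hm' hK1 hK2 L
  rw [← hs] at h2
  have h3 : 1 / s ^ 12 * H K' L (fun j => (|(j:ℝ) - m'| + r) ^ 12) ≤ 2 ^ 23 * (C + 1) := by
    rw [one_div_mul_eq_div, div_le_iff₀ (by positivity)]
    exact h2
  have h4 : (s / r) ^ p * (1 + 1 / s ^ 12 * H K' L (fun j => (|(j:ℝ) - m'| + r) ^ 12)) ≤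
      (s / r) ^ p * (2 ^ 24 * (C + 1)) := by
    refine mul_le_mul_of_nonneg_left ?_ (by positivity)
    linarith
  refine h1.trans (h4.trans (le_of_eq ?_))
  ring

/-! ### The weight -/

lemma m'_low {μ m' : ℝ} (hμ : 202 ≤ μ) (hm' : |m' - μ / 2| ≤ 1) : 50 / 101 * μ ≤ m' := by
  rw [abs_le] at hm'; linarith [hm'.1]

lemma m'_five {μ m' : ℝ} (hμ : 202 ≤ μ) (hm' : |m' - μ / 2| ≤ 1) :
    0 < m' ^ 5 ∧ 1 / m' ^ 5 ≤ (101 / 50) ^ 5 / μ ^ 5 := by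
  have h1 := m'_low hμ hm'
  have h0 : 0 < μ := by linarith
  have h2 : (50 / 101 * μ) ^ 5 ≤ m' ^ 5 := pow_le_pow_left₀ (by positivity) h1 5
  have h3 : 0 < (50 / 101 * μ) ^ 5 := by positivity
  refine ⟨by linarith, ?_⟩
  calc 1 / m' ^ 5 ≤ 1 / (50 / 101 * μ) ^ 5 := one_div_le_one_div_of_le h3 h2
    _ = _ := by rw [mul_pow]; field_simp

lemma wt_nonneg {e m' : ℝ} (he : 0 ≤ e) (hm : 0 < m' ^ 5) (J : ℕ) : 1 ≤ wt e m' J := by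
  unfold wt
  have : 0 ≤ e * (((J:ℝ) - m') ^ 10 / m' ^ 5) :=
    mul_nonneg he (div_nonneg (Even.pow_nonneg (by decide) _) hm.le)
  linarith

lemma wt_le {e μ m' r : ℝ} (he1 : e ≤ 1) (hμ : 202 ≤ μ) (hr : 0 < r)
    (hrμ : r ^ 2 = μ) (hm' : |m' - μ / 2| ≤ 1) (J : ℕ) :
    wt e m' J ≤ 35 * ((|(J:ℝ) - m'| + r) / r) ^ 10 := by
  obtain ⟨h1, h2⟩ := m'_five hμ hm'
  set v := (|(J:ℝ) - m'| + r) / r with hv
  have hd := abs_nonneg ((J:ℝ) - m')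
  have hv1 : 1 ≤ v := by
    rw [hv, le_div_iff₀ hr]; linarith
  have hv2 : |(J:ℝ) - m'| / r ≤ v := by
    rw [hv]; gcongr; linarith
  have hv3 : (|(J:ℝ) - m'| / r) ^ 10 ≤ v ^ 10 := pow_le_pow_left₀ (by positivity) hv2 10
  have hv4 : (1:ℝ) ≤ v ^ 10 := one_le_pow₀ hv1
  have h3 : ((J:ℝ) - m') ^ 10 / m' ^ 5 ≤ 34 * v ^ 10 := by
    have e1 : ((J:ℝ) - m') ^ 10 / m' ^ 5 = |(J:ℝ) - m'| ^ 10 * (1 / m' ^ 5) := by
      rw [Even.pow_abs (by decide)]; ring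
    have e2 : |(J:ℝ) - m'| ^ 10 * (1 / m' ^ 5) ≤ |(J:ℝ) - m'| ^ 10 * ((101 / 50) ^ 5 / μ ^ 5) :=
      mul_le_mul_of_nonneg_left h2 (by positivity)
    have e3 : |(J:ℝ) - m'| ^ 10 * ((101 / 50) ^ 5 / μ ^ 5) =
        (101 / 50) ^ 5 * (|(J:ℝ) - m'| / r) ^ 10 := by
      rw [← hrμ, div_pow]
      have : (r ^ 2) ^ 5 = r ^ 10 := by ring
      rw [this]; ring
    have e4 : (101 / 50 : ℝ) ^ 5 ≤ 34 := by norm_num
    rw [e1]
    refine e2.trans ?_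
    rw [e3]
    exact mul_le_mul e4 hv3 (by positivity) (by norm_num)
  unfold wt
  have h4 : e * (((J:ℝ) - m') ^ 10 / m' ^ 5) ≤ 1 * (34 * v ^ 10) := by
    refine mul_le_mul he1 h3 ?_ (by norm_num)
    exact div_nonneg (Even.pow_nonneg (by decide) _) h1.le
  linarith

/-- The expectation of the weight, with the sharp coefficient. -/
lemma H_wt {C : ℝ} (hC : 0 < C) (hH : ∀ K L : ℕ,
    H K L (fun j => ((j:ℝ) - hm K L) ^ 12) ≤ C * (min (K:ℝ) L + 1) ^ 6)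
    {e μ m' r : ℝ} (he : 0 ≤ e) (hμ2 : 202 ≤ μ) (hr : 3 ≤ r) (hμ : r ^ 2 = μ)
    (hm' : |m' - μ / 2| ≤ 1)
    {K K' : ℕ} (hK1 : K' ≤ K) (hK2 : K ≤ K' + 2) (L : ℕ) :
    H K' L (wt e m') ≤ 1 + e / 25 * (((L:ℝ) - μ) ^ 10 / μ ^ 5) +
      e * (101 ^ 11 * (C + 1)) * ((r + |(K:ℝ) - μ|) / r) ^ 10 := by
  obtain ⟨h1, h2⟩ := m'_five hμ2 hm'
  have h3 := H_ten hC hH hr hμ hm' hK1 hK2 L
  set s := r + |(K:ℝ) - μ| with hs
  have hr0 : 0 < r := by linarith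
  have hμ0 : 0 < μ := by linarith
  have e0 : H K' L (wt e m') = 1 + e * (1 / m' ^ 5) * H K' L (fun j => ((j:ℝ) - m') ^ 10) := by
    rw [← H_const_mul]
    have := H_add K' L (fun _ => 1) (fun j => e * (1 / m' ^ 5) * ((j:ℝ) - m') ^ 10)
    rw [H_const] at this
    rw [← this]
    congr 1
    funext j
    unfold wt
    ring
  have h4 : 0 ≤ (101/100) ^ 18 / 1024 * ((L:ℝ) - μ) ^ 10 + 101 ^ 10 * (C + 1) * s ^ 10 := by
    have : 0 ≤ ((L:ℝ) - μ) ^ 10 := Even.pow_nonneg (by decide) _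
    positivity
  have h5 : 1 / m' ^ 5 * H K' L (fun j => ((j:ℝ) - m') ^ 10) ≤ (101 / 50) ^ 5 / μ ^ 5 *
      ((101/100) ^ 18 / 1024 * ((L:ℝ) - μ) ^ 10 + 101 ^ 10 * (C + 1) * s ^ 10) := by
    refine mul_le_mul h2 h3 ?_ (by positivity)
    exact H_nonneg _ _ fun j _ _ => Even.pow_nonneg (by decide) _
  have h6 : (101 / 50 : ℝ) ^ 5 / μ ^ 5 *
      ((101/100) ^ 18 / 1024 * ((L:ℝ) - μ) ^ 10 + 101 ^ 10 * (C + 1) * s ^ 10) =
      ((101 / 50 : ℝ) ^ 5 * ((101/100) ^ 18 / 1024)) * (((L:ℝ) - μ) ^ 10 / μ ^ 5) +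
      ((101 / 50 : ℝ) ^ 5 * 101 ^ 10) * ((C + 1) * (s / r) ^ 10) := by
    have e5 : (s / r) ^ 10 = s ^ 10 / μ ^ 5 := by
      rw [← hμ, div_pow]
      have : (r ^ 2) ^ 5 = r ^ 10 := by ring
      rw [this]
    rw [e5]; ring
  have h7 : 0 ≤ ((L:ℝ) - μ) ^ 10 / μ ^ 5 := div_nonneg (Even.pow_nonneg (by decide) _) (by positivity)
  have h8 : 0 ≤ (C + 1) * (s / r) ^ 10 := by positivity
  have n1 : (101 / 50 : ℝ) ^ 5 * ((101/100) ^ 18 / 1024) ≤ 1 / 25 := by norm_num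
  have n2 : (101 / 50 : ℝ) ^ 5 * 101 ^ 10 ≤ 101 ^ 11 := by norm_num
  have h9 := mul_le_mul_of_nonneg_right n1 h7
  have h10 := mul_le_mul_of_nonneg_right n2 h8
  rw [h6] at h5
  have h11 : 1 / m' ^ 5 * H K' L (fun j => ((j:ℝ) - m') ^ 10) ≤
      1 / 25 * (((L:ℝ) - μ) ^ 10 / μ ^ 5) + 101 ^ 11 * ((C + 1) * (s / r) ^ 10) := by linarith
  have h12 := mul_le_mul_of_nonneg_left h11 he
  rw [e0]
  calc 1 + e * (1 / m' ^ 5) * H K' L (fun j => ((j:ℝ) - m') ^ 10)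
      = 1 + e * (1 / m' ^ 5 * H K' L (fun j => ((j:ℝ) - m') ^ 10)) := by ring
    _ ≤ 1 + e * (1 / 25 * (((L:ℝ) - μ) ^ 10 / μ ^ 5) + 101 ^ 11 * ((C + 1) * (s / r) ^ 10)) := by
        linarith
    _ = _ := by ring

end Pool.Agent.Q2.MK
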