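import Pool.Agent.Q291.MK.Stm3
import Pool.Agent.Q280.MK.HYP1
import Pool.Agent.Q280.MK.RHO
import Pool.Agent.Q222.MK.TLAW
import Pool.Agent.Q150.MK.EXPM

/-!
# Migdal-Kadanoff project, jobs NTN, NTF, NTB: tools
-/

namespace Pool.Agent.Q2.MK

open Pool.Agent.Q291.MK Finset

theorem hyp1 : P_HYP1 := Pool.Agent.Q280.MK.t_HYP1

/-! ### Hypergeometric expectations -/

lemma H_mono (K L : ℕ) {f g : ℕ → ℝ} (h : ∀ j, j ≤ K → j ≤ L → f j ≤ g j) :
    H K L f ≤ H K L g := by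
  obtain ⟨h1, -, h3, -⟩ := hyp1 K L
  unfold H
  refine Finset.sum_le_sum fun j hj => ?_
  rw [Finset.mem_range] at hj
  by_cases hL : j ≤ L
  · exact mul_le_mul_of_nonneg_left (h j (by omega) hL) (h1 j)
  · rw [h3 j (by omega), zero_mul, zero_mul]

lemma H_const_mul (K L : ℕ) (c : ℝ) (f : ℕ → ℝ) : H K L (fun j => c * f j) = c * H K L f := by
  unfold H; rw [Finset.mul_sum]; exact Finset.sum_congr rfl fun j _ => by ring

lemma H_add (K L : ℕ) (f g : ℕ → ℝ) : H K L (fun j => f j + g j) = H K L f + H K L g := by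
  unfold H; rw [← Finset.sum_add_distrib]; exact Finset.sum_congr rfl fun j _ => by ring

lemma H_sub (K L : ℕ) (f g : ℕ → ℝ) : H K L (fun j => f j - g j) = H K L f - H K L g := by
  unfold H; rw [← Finset.sum_sub_distrib]; exact Finset.sum_congr rfl fun j _ => by ring

lemma H_const (K L : ℕ) (c : ℝ) : H K L (fun _ => c) = c := by
  obtain ⟨-, -, -, h4, -⟩ := hyp1 K L
  have := H_const_mul K L c (fun _ => 1)
  rw [h4] at this
  simpa using this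

lemma H_abs_le (K L : ℕ) {f g : ℕ → ℝ} (h : ∀ j, j ≤ K → j ≤ L → |f j| ≤ g j) :
    |H K L f| ≤ H K L g :=
  (Pool.Agent.Q222.MK.abs_H_le hyp1 K L f).trans (H_mono K L h)

lemma H_nonneg (K L : ℕ) {f : ℕ → ℝ} (h : ∀ j, j ≤ K → j ≤ L → 0 ≤ f j) : 0 ≤ H K L f := by
  have := H_mono K L (f := fun _ => 0) (g := f) h
  rwa [H_const] at this

lemma H_le_const (K L : ℕ) {f : ℕ → ℝ} {c : ℝ} (h : ∀ j, j ≤ K → j ≤ L → f j ≤ c) :
    H K L f ≤ c := by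
  have := H_mono K L (f := f) (g := fun _ => c) h
  rwa [H_const] at this

/-! ### Elementary inequalities -/

lemma pow_le_twelve {v : ℝ} (hv : 0 ≤ v) {p : ℕ} (hp : p ≤ 12) : v ^ p ≤ 1 + v ^ 12 := by
  rcases le_total v 1 with h | h
  · have h1 : v ^ p ≤ 1 := pow_le_one₀ hv h
    have h2 : 0 ≤ v ^ 12 := by positivity
    linarith
  · have h1 : v ^ p ≤ v ^ 12 := pow_le_pow_right₀ h hp
    linarith

/-- Convexity of the tenth power. -/
lemma tenth_add (A B : ℝ) : (A + B) ^ 10 ≤ (101/100) ^ 9 * A ^ 10 + 101 ^ 9 * B ^ 10 := by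
  have h := (Even.convexOn_pow (𝕜 := ℝ) (n := 10) (by decide)).2 (Set.mem_univ (101/100 * A))
    (Set.mem_univ (101 * B)) (by norm_num : (0:ℝ) ≤ 100/101) (by norm_num : (0:ℝ) ≤ 1/101)
    (by norm_num)
  simp only [smul_eq_mul] at h
  have e1 : (100:ℝ)/101 * (101/100 * A) + 1/101 * (101 * B) = A + B := by ring
  rw [e1] at h
  refine h.trans (le_of_eq ?_)
  ring

lemma two_add (A B : ℝ) : (A + B) ^ 12 ≤ 2 ^ 11 * (A ^ 12 + B ^ 12) := by
  have h := (Even.convexOn_pow (𝕜 := ℝ) (n := 12) (by decide)).2 (Set.mem_univ (2 * A))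
    (Set.mem_univ (2 * B)) (by norm_num : (0:ℝ) ≤ 1/2) (by norm_num : (0:ℝ) ≤ 1/2)
    (by norm_num)
  simp only [smul_eq_mul] at h
  have e1 : (1:ℝ)/2 * (2 * A) + 1/2 * (2 * B) = A + B := by ring
  rw [e1] at h
  refine h.trans (le_of_eq ?_)
  ring

lemma three_add (A B C : ℝ) : (A + B + C) ^ 12 ≤ 2 ^ 22 * (A ^ 12 + B ^ 12 + C ^ 12) := by
  have h1 := two_add (A + B) C
  have h2 := two_add A B
  have h3 : 0 ≤ C ^ 12 := Even.pow_nonneg (by decide) _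
  nlinarith

lemma q_ineq {q t : ℝ} (hq : 0 ≤ q) (ht : 0 < t) : q ^ 5 ≤ t ^ 5 + q ^ 6 / t := by
  rcases le_total q t with h | h
  · have h1 : q ^ 5 ≤ t ^ 5 := pow_le_pow_left₀ hq h 5
    have h2 : 0 ≤ q ^ 6 / t := by positivity
    linarith
  · have h1 : q ^ 5 ≤ q ^ 6 / t := by
      rw [le_div_iff₀ ht]
      have : q ^ 5 * t ≤ q ^ 5 * q := mul_le_mul_of_nonneg_left h (by positivity)
      calc q ^ 5 * t ≤ q ^ 5 * q := this
        _ = _ := by ring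
    have h2 : 0 ≤ t ^ 5 := by positivity
    linarith

/-! ### Mean of the hypergeometric law -/

lemma den_pos (K L : ℕ) : (0:ℝ) < K + L + 1/2 := by positivity

lemma hm_dist (K L : ℕ) (m : ℝ) :
    |hm K L - m/2| ≤ max |(K:ℝ) - m| |(L:ℝ) - m| / 2 + 1/8 := by
  have hk : (0:ℝ) ≤ K := Nat.cast_nonneg K
  have hl : (0:ℝ) ≤ L := Nat.cast_nonneg L
  have h2 := (le_abs_self _).trans (le_max_left |(K:ℝ) - m| |(L:ℝ) - m|)
  have h3 := (le_abs_self _).trans (le_max_right |(K:ℝ) - m| |(L:ℝ) - m|)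
  have h4 := (neg_le_abs _).trans (le_max_left |(K:ℝ) - m| |(L:ℝ) - m|)
  have h5 := (neg_le_abs _).trans (le_max_right |(K:ℝ) - m| |(L:ℝ) - m|)
  rw [abs_le]
  constructor
  · rcases le_total (K:ℝ) L with hkl | hkl
    · have h1 : (K:ℝ) / 2 - 1/8 ≤ hm K L := by
        unfold hm
        rw [le_div_iff₀ (den_pos K L)]
        nlinarith [mul_nonneg hk (by linarith : (0:ℝ) ≤ L - K)]
      linarith
    · have h1 : (L:ℝ) / 2 - 1/8 ≤ hm K L := by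
        unfold hm
        rw [le_div_iff₀ (den_pos K L)]
        nlinarith [mul_nonneg hl (by linarith : (0:ℝ) ≤ K - L)]
      linarith
  · have h1 : hm K L ≤ ((K:ℝ) + L) / 4 := by
      unfold hm
      rw [div_le_iff₀ (den_pos K L)]
      nlinarith [sq_nonneg ((K:ℝ) - L)]
    linarith

/-- Twelfth moment of the deviation. -/
lemma H_twelve {C : ℝ} (hC : 0 < C) (hH : ∀ K L : ℕ,
    H K L (fun j => ((j:ℝ) - hm K L) ^ 12) ≤ C * (min (K:ℝ) L + 1) ^ 6)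
    {μ m' r : ℝ} (hr : 3 ≤ r) (hμ : r ^ 2 = μ) (hm' : |m' - μ / 2| ≤ 1)
    {K K' : ℕ} (hK1 : K' ≤ K) (hK2 : K ≤ K' + 2) (L : ℕ) :
    H K' L (fun j => (|(j:ℝ) - m'| + r) ^ 12) ≤
      2 ^ 23 * (C + 1) * (r + |(K:ℝ) - μ| + |(L:ℝ) - μ|) ^ 12 := by
  set s := r + |(K:ℝ) - μ| + |(L:ℝ) - μ| with hs
  have hx := abs_nonneg ((K:ℝ) - μ)
  have hy := abs_nonneg ((L:ℝ) - μ)
  have hk : (K':ℝ) ≤ K := by exact_mod_cast hK1
  have hk2 : (K:ℝ) ≤ K' + 2 := by exact_mod_cast hK2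
  have hk0 : (0:ℝ) ≤ K' := Nat.cast_nonneg _
  have hl0 : (0:ℝ) ≤ L := Nat.cast_nonneg _
  have hx' : |(K':ℝ) - μ| ≤ |(K:ℝ) - μ| + 2 := by
    have h1 := le_abs_self ((K:ℝ) - μ)
    have h2 := neg_le_abs ((K:ℝ) - μ)
    rw [abs_le]; constructor <;> linarith
  have hh : |hm K' L - m'| + r ≤ 2 * s := by
    have h1 := hm_dist K' L μ
    have h2 : |hm K' L - m'| ≤ |hm K' L - μ / 2| + |m' - μ / 2| := by
      have : hm K' L - m' = (hm K' L - μ / 2) - (m' - μ / 2) := by ring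
      rw [this]; exact abs_sub _ _
    have h3 : max |(K':ℝ) - μ| |(L:ℝ) - μ| ≤ |(K:ℝ) - μ| + 2 + |(L:ℝ) - μ| :=
      max_le (by linarith) (by linarith)
    linarith
  have hpt : ∀ j : ℕ, (|(j:ℝ) - m'| + r) ^ 12 ≤
      2 ^ 11 * (((j:ℝ) - hm K' L) ^ 12 + (2 * s) ^ 12) := by
    intro j
    have h1 : |(j:ℝ) - m'| + r ≤ |(j:ℝ) - hm K' L| + 2 * s := by
      have : (j:ℝ) - m' = ((j:ℝ) - hm K' L) + (hm K' L - m') := by ring
      have h2 := abs_add_le ((j:ℝ) - hm K' L) (hm K' L - m')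
      rw [← this] at h2
      linarith
    have h0 : 0 ≤ |(j:ℝ) - m'| + r := by positivity
    have h2 := pow_le_pow_left₀ h0 h1 12
    have h3 := two_add |(j:ℝ) - hm K' L| (2 * s)
    rw [Even.pow_abs (by decide)] at h3
    exact h2.trans h3
  have h1 := H_mono K' L (fun j _ _ => hpt j)
  rw [H_const_mul, H_add, H_const] at h1
  have h2 := hH K' L
  have h3 : (min (K':ℝ) L + 1) ^ 6 ≤ (2 * s ^ 2) ^ 6 := by
    refine pow_le_pow_left₀ (by positivity) ?_ 6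
    have h4 : min (K':ℝ) L ≤ K' := min_le_left _ _
    have h5 : (K:ℝ) ≤ |(K:ℝ) - μ| + μ := by linarith [le_abs_self ((K:ℝ) - μ)]
    have h6 : (r + |(K:ℝ) - μ|) ^ 2 ≤ s ^ 2 := pow_le_pow_left₀ (by positivity) (by linarith) 2
    have h7 : (r + |(K:ℝ) - μ|) ^ 2 = μ + 2 * (r * |(K:ℝ) - μ|) + |(K:ℝ) - μ| ^ 2 := by
      rw [← hμ]; ring
    have h8 : 3 * |(K:ℝ) - μ| ≤ r * |(K:ℝ) - μ| := mul_le_mul_of_nonneg_right hr hx
    have h9 : 3 ^ 2 ≤ r ^ 2 := pow_le_pow_left₀ (by norm_num) hr 2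
    have h10 : 0 ≤ |(K:ℝ) - μ| ^ 2 := by positivity
    rw [hμ] at h9
    linarith
  have h4 : C * (min (K':ℝ) L + 1) ^ 6 ≤ C * (2 * s ^ 2) ^ 6 := mul_le_mul_of_nonneg_left h3 hC.le
  have h5 : 0 ≤ s ^ 12 := by positivity
  have h6 : (2 * s ^ 2) ^ 6 = 64 * s ^ 12 := by ring
  have h7 : (2 * s) ^ 12 = 4096 * s ^ 12 := by ring
  rw [h6] at h4
  rw [h7] at h1
  refine h1.trans ?_
  have h8 : 2 ^ 23 * (C + 1) * s ^ 12 = 2 ^ 23 * (C * s ^ 12) + 2 ^ 23 * s ^ 12 := by ring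
  have h9 : C * (64 * s ^ 12) = 64 * (C * s ^ 12) := by ring
  have h10 : 0 ≤ C * s ^ 12 := by positivity
  rw [h8]
  rw [h9] at h4
  linarith

end Pool.Agent.Q2.MK
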